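import Mathlib

/-!
MP_4bcbbd_co, second order: points with three common neighbours in the graph of full pairs,
first part: they form a chain.
-/

set_option autoImplicit false

namespace Pool.Agent.H.MP_4bcbbd_co.SO

/-- The three point inequalities. -/
def HT {ι : Type*} (P : Finset ι) (X : ι → Fin 3 → ℝ) (w : ι → ℝ) : Prop :=
  ∀ x ∈ P, ∀ y ∈ P, ∀ z ∈ P, y ≠ x → z ≠ x → ∀ a b : ℝ, (a ≠ 0 ∨ b ≠ 0) →
    ∀ l i k : Fin 3, l ≠ i → l ≠ k → i ≠ k →
      |a * (X y l - X x l) + b * (X z l - X x l)| + |a + b| * w x <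
        |a| * w y + |b| * w z + |a * (X y i - X x i) + b * (X z i - X x i)| +
          |a * (X y k - X x k) + b * (X z k - X x k)|

theorem HT.flip {ι : Type*} {P : Finset ι} {X : ι → Fin 3 → ℝ} {w : ι → ℝ} (h : HT P X w)
    (s : Fin 3 → ℝ) (hs : ∀ j, |s j| = 1) : HT P (fun x j => s j * X x j) w := by
  intro x hx y hy z hz hyx hzx a b hab l i k hli hlk hik
  have h0 := h x hx y hy z hz hyx hzx a b hab l i k hli hlk hik
  have e : ∀ j, |a * (s j * X y j - s j * X x j) + b * (s j * X z j - s j * X x j)| =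
      |a * (X y j - X x j) + b * (X z j - X x j)| := by
    intro j
    rw [show a * (s j * X y j - s j * X x j) + b * (s j * X z j - s j * X x j) =
      s j * (a * (X y j - X x j) + b * (X z j - X x j)) by ring, abs_mul, hs, one_mul]
  simp only [e]
  exact h0

/-- the pair inequality -/
theorem HT.pair {ι : Type*} {P : Finset ι} {X : ι → Fin 3 → ℝ} {w : ι → ℝ} (h : HT P X w)
    {x y : ι} (hx : x ∈ P) (hy : y ∈ P) (hyx : y ≠ x) {l i k : Fin 3} (hli : l ≠ i)
    (hlk : l ≠ k) (hik : i ≠ k) :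
    |X y l - X x l| + w x < w y + |X y i - X x i| + |X y k - X x k| := by
  have h0 := h x hx y hy y hy hyx hyx 1 0 (Or.inl one_ne_zero) l i k hli hlk hik
  simpa using h0

theorem third : ∀ i k : Fin 3, i ≠ k → ∃ j : Fin 3, j ≠ i ∧ j ≠ k := by decide

theorem others : ∀ j : Fin 3, ∃ i k : Fin 3, j ≠ i ∧ j ≠ k ∧ i ≠ k := by decide

/-- different points have different coordinates -/
theorem HT.ne {ι : Type*} {P : Finset ι} {X : ι → Fin 3 → ℝ} {w : ι → ℝ} (h : HT P X w)
    {x y : ι} (hx : x ∈ P) (hy : y ∈ P) (hyx : y ≠ x) (j : Fin 3) : X y j - X x j ≠ 0 := by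
  intro h0
  obtain ⟨i, k, hji, hjk, hik⟩ := others j
  have h1 := h.pair hx hy hyx hji.symm hik hjk
  have h2 := h.pair hy hx hyx.symm hjk.symm hik.symm hji
  have h0' : X x j - X y j = 0 := by linarith
  rw [h0, abs_zero] at h1
  rw [h0', abs_zero, abs_sub_comm (X x k), abs_sub_comm (X x i)] at h2
  linarith

/-- the arithmetic core of the betweenness lemma -/
theorem fact_core (ai aj ak bi bj bk d1 d2 : ℝ) (hai : 0 < ai) (hak : 0 < ak)
    (hbk : ak < bk) (hbi' : bi < ai)
    (p1 : d1 < ai + ak - aj) (p2 : d1 < ai + aj - ak) (p3 : d1 < ak + aj - ai)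
    (t1 : |aj * bk - ak * bj| - |ak * bi - ai * bk| < bk * d1 - ak * d2)
    (t2 : |ak * bi - ai * bk| - |aj * bk - ak * bj| < bk * d1 - ak * d2)
    (t3 : |ak * bi - ai * bk| - |ai * bj - aj * bi| < ai * d2 - bi * d1)
    (t4 : |ai * bj - aj * bi| - |ak * bi - ai * bk| < ai * d2 - bi * d1) : False := by
  have hN : 0 < ai * bk - ak * bi := by nlinarith
  have eN : |ak * bi - ai * bk| = ai * bk - ak * bi := by
    rw [abs_sub_comm, abs_of_pos hN]
  rw [eN] at t1 t2 t3 t4
  have s1 := mul_lt_mul_of_pos_left t1 hai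
  have s2 := mul_lt_mul_of_pos_left t2 hai
  have s3 := mul_lt_mul_of_pos_left t3 hak
  have s4 := mul_lt_mul_of_pos_left t4 hak
  have q1 := mul_lt_mul_of_pos_right p1 hN
  have q2 := mul_lt_mul_of_pos_right p2 hN
  have q3 := mul_lt_mul_of_pos_right p3 hN
  rcases le_total 0 (aj * bk - ak * bj) with hi | hi
  · rcases le_total 0 (ai * bj - aj * bi) with hk | hk
    · rw [abs_of_nonneg hi] at s1 s2
      rw [abs_of_nonneg hk] at s3 s4
      nlinarith
    · rw [abs_of_nonneg hi] at s1 s2
      rw [abs_of_nonpos hk] at s3 s4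
      nlinarith
  · rcases le_total 0 (ai * bj - aj * bi) with hk | hk
    · rw [abs_of_nonpos hi] at s1 s2
      rw [abs_of_nonneg hk] at s3 s4
      nlinarith
    · nlinarith

/-- betweenness lemma for points in the positive octant above `z` -/
theorem HT.fact_pos {ι : Type*} {P : Finset ι} {X : ι → Fin 3 → ℝ} {w : ι → ℝ} (h : HT P X w)
    {x y z : ι} (hx : x ∈ P) (hy : y ∈ P) (hz : z ∈ P) (hyx : y ≠ x) (hzx : z ≠ x) (hyz : y ≠ z)
    (hpos : ∀ j, 0 < X x j - X z j) {i k : Fin 3} (hik : i ≠ k)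
    (h1 : X x k < X y k) (h2 : X y i < X x i) (h3 : X z i < X y i) : False := by
  obtain ⟨j, hji, hjk⟩ := third i k hik
  have p1 := h.pair hz hx hzx.symm hji hjk hik
  have p2 := h.pair hz hx hzx.symm hjk.symm hik.symm hji
  have p3 := h.pair hz hx hzx.symm hji.symm hik hjk
  rw [abs_of_pos (hpos i), abs_of_pos (hpos j), abs_of_pos (hpos k)] at p1 p2 p3
  have q1 := h x hx y hy z hz hyx hzx (X x k - X z k) (X y k - X x k)
    (Or.inl (hpos k).ne') i j k hji.symm hik hjk
  have q2 := h x hx y hy z hz hyx hzx (X x k - X z k) (X y k - X x k)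
    (Or.inl (hpos k).ne') j i k hji hjk hik
  have q3 := h y hy x hx z hz hyx.symm hyz.symm (X y i - X z i) (X x i - X y i)
    (Or.inr (by linarith)) j k i hjk hji hik.symm
  have q4 := h y hy x hx z hz hyx.symm hyz.symm (X y i - X z i) (X x i - X y i)
    (Or.inr (by linarith)) k j i hjk.symm hik.symm hji
  obtain ⟨ai, hai⟩ : ∃ ai, ai = X x i - X z i := ⟨_, rfl⟩
  obtain ⟨aj, haj⟩ : ∃ aj, aj = X x j - X z j := ⟨_, rfl⟩
  obtain ⟨ak, hak⟩ : ∃ ak, ak = X x k - X z k := ⟨_, rfl⟩
  obtain ⟨bi, hbi⟩ : ∃ bi, bi = X y i - X z i := ⟨_, rfl⟩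
  obtain ⟨bj, hbj⟩ : ∃ bj, bj = X y j - X z j := ⟨_, rfl⟩
  obtain ⟨bk, hbk⟩ : ∃ bk, bk = X y k - X z k := ⟨_, rfl⟩
  have hai0 : 0 < ai := hai ▸ hpos i
  have hak0 : 0 < ak := hak ▸ hpos k
  have hbi0 : 0 < bi := by linarith
  have hbk0 : ak < bk := by linarith
  have hbi1 : bi < ai := by linarith
  rw [show X y i - X x i = bi - ai by linarith, show X z i - X x i = -ai by linarith,
    show X y j - X x j = bj - aj by linarith, show X z j - X x j = -aj by linarith,
    show X y k - X x k = bk - ak by linarith, show X z k - X x k = -ak by linarith, ← hak] at q1 q2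
  rw [show X x i - X y i = ai - bi by linarith, show X z i - X y i = -bi by linarith,
    show X x j - X y j = aj - bj by linarith, show X z j - X y j = -bj by linarith,
    show X x k - X y k = ak - bk by linarith, show X z k - X y k = -bk by linarith, ← hbi] at q3 q4
  rw [← hai, ← haj, ← hak] at p1 p2 p3
  rw [show ak * (bi - ai) + (bk - ak) * -ai = ak * bi - ai * bk by ring,
    show ak * (bj - aj) + (bk - ak) * -aj = -(aj * bk - ak * bj) by ring,
    show ak * (bk - ak) + (bk - ak) * -ak = 0 by ring, abs_neg, abs_zero,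
    show ak + (bk - ak) = bk by ring, abs_of_pos hak0, abs_of_pos (hak0.trans hbk0),
    abs_of_pos (sub_pos.2 hbk0)] at q1 q2
  rw [show bi * (ai - bi) + (ai - bi) * -bi = 0 by ring,
    show bi * (aj - bj) + (ai - bi) * -bj = -(ai * bj - aj * bi) by ring,
    show bi * (ak - bk) + (ai - bi) * -bk = ak * bi - ai * bk by ring, abs_neg, abs_zero,
    show bi + (ai - bi) = ai by ring, abs_of_pos hai0, abs_of_pos hbi0,
    abs_of_pos (sub_pos.2 hbi1)] at q3 q4
  refine fact_core ai aj ak bi bj bk (w z - w x) (w z - w y) hai0 hak0 hbk0 hbi1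
    (by linarith) (by linarith) (by linarith) ?_ ?_ ?_ ?_
  · nlinarith
  · nlinarith
  · nlinarith
  · nlinarith

theorem exists_sign (t : ℝ) (ht : t ≠ 0) : ∃ s : ℝ, |s| = 1 ∧ 0 < s * t := by
  rcases lt_or_gt_of_ne ht with h | h
  · exact ⟨-1, by norm_num, by linarith⟩
  · exact ⟨1, by norm_num, by linarith⟩

/-- the middle one of three points is the same in all coordinates -/
theorem HT.fact {ι : Type*} {P : Finset ι} {X : ι → Fin 3 → ℝ} {w : ι → ℝ} (h : HT P X w)
    {x y z : ι} (hx : x ∈ P) (hy : y ∈ P) (hz : z ∈ P) (hyx : y ≠ x) (hzx : z ≠ x) (hyz : y ≠ z)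
    {i k : Fin 3} (hik : i ≠ k) (h1 : 0 < (X x k - X z k) * (X y k - X x k))
    (h2 : 0 < (X y i - X z i) * (X x i - X y i)) : False := by
  choose s hs hs2 using fun j : Fin 3 => exists_sign (X x j - X z j) (h.ne hz hx hzx.symm j)
  refine (h.flip s hs).fact_pos hx hy hz hyx hzx hyz ?_ hik ?_ ?_ ?_
  · intro j
    have := hs2 j
    show 0 < s j * X x j - s j * X z j
    linarith
  · show s k * X x k < s k * X y k
    have a := hs2 k
    by_contra hc
    have b : s k * (X y k - X x k) ≤ 0 := by linarith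
    have c : (s k * (X x k - X z k)) * (s k * (X y k - X x k)) ≤ 0 :=
      mul_nonpos_of_nonneg_of_nonpos a.le b
    have d : s k * s k = 1 := by
      rw [← abs_mul_abs_self, hs, one_mul]
    have e : (s k * (X x k - X z k)) * (s k * (X y k - X x k)) =
        (s k * s k) * ((X x k - X z k) * (X y k - X x k)) := by ring
    rw [e, d, one_mul] at c
    linarith
  all_goals
    have a := hs2 i
    have d : s i * s i = 1 := by
      rw [← abs_mul_abs_self, hs, one_mul]
    have e : (s i * (X y i - X z i)) * (s i * (X x i - X y i)) =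
        (s i * s i) * ((X y i - X z i) * (X x i - X y i)) := by ring
    rw [d, one_mul] at e
    have f : s i * (X x i - X z i) = s i * (X y i - X z i) + s i * (X x i - X y i) := by ring
    have g : 0 < (s i * (X y i - X z i)) * (s i * (X x i - X y i)) := by rw [e]; exact h2
    have g2 : 0 < s i * (X y i - X z i) ∧ 0 < s i * (X x i - X y i) := by
      rcases (mul_pos_iff.1 g) with h' | h'
      · exact h'
      · linarith
  · show s i * X y i < s i * X x i
    linarith [g2.2]
  · show s i * X z i < s i * X y i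
    linarith [g2.1]

theorem HT.mid {ι : Type*} {P : Finset ι} {X : ι → Fin 3 → ℝ} {w : ι → ℝ} (h : HT P X w)
    {x y z : ι} (hx : x ∈ P) (hy : y ∈ P) (hz : z ∈ P) (hyx : y ≠ x) (hzx : z ≠ x) (hyz : y ≠ z)
    {i k : Fin 3} (hik : i ≠ k) (h1 : (X y k - X x k) * (X z k - X x k) < 0) :
    (X y i - X x i) * (X z i - X x i) < 0 := by
  by_contra hc
  have n1 := h.ne hx hy hyx i
  have n2 := h.ne hx hz hzx i
  have n3 := h.ne hz hy hyz i
  have hp : 0 < (X y i - X x i) * (X z i - X x i) :=
    lt_of_le_of_ne (not_lt.1 hc) (mul_ne_zero n1 n2).symm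
  rcases mul_pos_iff.1 hp with ⟨a, b⟩ | ⟨a, b⟩ <;> rcases lt_or_gt_of_ne n3 with c | c
  · exact h.fact hx hy hz hyx hzx hyz hik (by nlinarith) (by nlinarith)
  · exact h.fact hx hz hy hzx hyx hyz.symm hik (by nlinarith) (by nlinarith)
  · exact h.fact hx hz hy hzx hyx hyz.symm hik (by nlinarith) (by nlinarith)
  · exact h.fact hx hy hz hyx hzx hyz hik (by nlinarith) (by nlinarith)

theorem HT.pairSign {ι : Type*} {P : Finset ι} {X : ι → Fin 3 → ℝ} {w : ι → ℝ} (h : HT P X w)
    {x y z : ι} (hx : x ∈ P) (hy : y ∈ P) (hz : z ∈ P) (hyx : y ≠ x) (hzx : z ≠ x) (hyz : y ≠ z)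
    {i k : Fin 3} (hik : i ≠ k) :
    0 < ((X y i - X x i) * (X y k - X x k)) * ((X z i - X x i) * (X z k - X x k)) := by
  have e : ((X y i - X x i) * (X y k - X x k)) * ((X z i - X x i) * (X z k - X x k)) =
      ((X y i - X x i) * (X z i - X x i)) * ((X y k - X x k) * (X z k - X x k)) := by ring
  rw [e]
  have n1 := mul_ne_zero (h.ne hx hy hyx i) (h.ne hx hz hzx i)
  have n2 := mul_ne_zero (h.ne hx hy hyx k) (h.ne hx hz hzx k)
  rcases lt_or_gt_of_ne n1 with a | a
  · exact mul_pos_of_neg_of_neg a (h.mid hx hy hz hyx hzx hyz hik.symm a)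
  · rcases lt_or_gt_of_ne n2 with b | b
    · have := h.mid hx hy hz hyx hzx hyz hik b
      linarith
    · exact mul_pos a b

/-- all pairs have the same sign -/
theorem HT.allSign {ι : Type*} {P : Finset ι} {X : ι → Fin 3 → ℝ} {w : ι → ℝ} (h : HT P X w)
    {i k : Fin 3} (hik : i ≠ k) {x y x' y' : ι} (hx : x ∈ P) (hy : y ∈ P) (hyx : y ≠ x)
    (hx' : x' ∈ P) (hy' : y' ∈ P) (hyx' : y' ≠ x') :
    0 < ((X y i - X x i) * (X y k - X x k)) * ((X y' i - X x' i) * (X y' k - X x' k)) := by
  have key : ∀ {x y z : ι}, x ∈ P → y ∈ P → z ∈ P → y ≠ x → z ≠ x →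
      0 < ((X y i - X x i) * (X y k - X x k)) * ((X z i - X x i) * (X z k - X x k)) := by
    intro x y z hx hy hz hyx hzx
    by_cases hyz : y = z
    · subst hyz
      have n := mul_ne_zero (h.ne hx hy hyx i) (h.ne hx hy hyx k)
      exact mul_self_pos.2 n
    · exact h.pairSign hx hy hz hyx hzx hyz hik
  have swap : ∀ x y : ι, (X y i - X x i) * (X y k - X x k) = (X x i - X y i) * (X x k - X y k) := by
    intro x y; ring
  by_cases h1 : x' = x
  · subst h1
    exact key hx hy hy' hyx hyx'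
  · have a := key hx hy hx' hyx h1
    rw [swap x x'] at a
    have b := key hx' hx hy' (Ne.symm h1) hyx'
    have c : 0 < ((X x i - X x' i) * (X x k - X x' k)) ^ 2 := by
      have := mul_ne_zero (h.ne hx' hx (Ne.symm h1) i) (h.ne hx' hx (Ne.symm h1) k)
      positivity
    have d := mul_pos a b
    have e : ((X y i - X x i) * (X y k - X x k)) * ((X x i - X x' i) * (X x k - X x' k)) *
        (((X x i - X x' i) * (X x k - X x' k)) * ((X y' i - X x' i) * (X y' k - X x' k))) =
        (((X y i - X x i) * (X y k - X x k)) * ((X y' i - X x' i) * (X y' k - X x' k))) *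
          ((X x i - X x' i) * (X x k - X x' k)) ^ 2 := by ring
    rw [e] at d
    exact (pos_iff_pos_of_mul_pos d).2 c

/-- after some sign changes all the points form a chain -/
theorem HT.chain {ι : Type*} {P : Finset ι} {X : ι → Fin 3 → ℝ} {w : ι → ℝ} (h : HT P X w) :
    ∃ s : Fin 3 → ℝ, (∀ j, |s j| = 1) ∧ ∀ x ∈ P, ∀ y ∈ P, y ≠ x → 
      (∀ j, s j * X x j < s j * X y j) ∨ (∀ j, s j * X y j < s j * X x j) := by
  by_cases hP : ∃ x ∈ P, ∃ y ∈ P, y ≠ x
  · obtain ⟨x0, hx0, y0, hy0, hne⟩ := hP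
    choose s hs hs2 using fun j : Fin 3 => exists_sign (X y0 j - X x0 j) (h.ne hx0 hy0 hne j)
    refine ⟨s, hs, fun x hx y hy hyx => ?_⟩
    have pos : ∀ i k : Fin 3, 0 < (s i * (X y i - X x i)) * (s k * (X y k - X x k)) := by
      intro i k
      by_cases hik : i = k
      · subst hik
        refine mul_self_pos.2 (mul_ne_zero ?_ (h.ne hx hy hyx i))
        intro h0
        have := hs i
        rw [h0, abs_zero] at this
        norm_num at this
      · have a := h.allSign hik hx hy hyx hx0 hy0 hne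
        have b : 0 < (s i * (X y0 i - X x0 i)) * (s k * (X y0 k - X x0 k)) :=
          mul_pos (hs2 i) (hs2 k)
        have d := mul_pos a b
        have hsq : ∀ j, s j * s j = 1 := fun j => by rw [← abs_mul_abs_self, hs, one_mul]
        have c : 0 < ((X y0 i - X x0 i) * (X y0 k - X x0 k)) ^ 2 := by
          have := mul_ne_zero (h.ne hx0 hy0 hne i) (h.ne hx0 hy0 hne k)
          positivity
        have e : ((X y i - X x i) * (X y k - X x k)) * ((X y0 i - X x0 i) * (X y0 k - X x0 k)) *
            ((s i * (X y0 i - X x0 i)) * (s k * (X y0 k - X x0 k))) =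
            ((s i * (X y i - X x i)) * (s k * (X y k - X x k))) *
              ((X y0 i - X x0 i) * (X y0 k - X x0 k)) ^ 2 := by ring
        rw [e] at d
        exact (pos_iff_pos_of_mul_pos d).2 c
    have n0 : s 0 * (X y 0 - X x 0) ≠ 0 := by
      intro h0
      have := pos 0 0
      rw [h0, zero_mul] at this
      exact lt_irrefl _ this
    rcases lt_or_gt_of_ne n0 with a | a
    · right
      intro j
      have b := pos 0 j
      have c : s j * (X y j - X x j) < 0 := by
        by_contra hc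
        have := mul_nonpos_of_nonpos_of_nonneg a.le (not_lt.1 hc)
        linarith
      linarith
    · left
      intro j
      have b := pos 0 j
      have c : 0 < s j * (X y j - X x j) := (pos_iff_pos_of_mul_pos b).1 a
      linarith
  · push Not at hP
    refine ⟨fun _ => 1, fun _ => by norm_num, fun x hx y hy hyx => absurd (hP x hx y hy) hyx⟩

end Pool.Agent.H.MP_4bcbbd_co.SO
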