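import Pool.Agent.H.MP_4bcbbd_co.SO.GrB

/-!
MP_4bcbbd_co, second order: graphs in which the common neighbourhoods of three vertices span few
edges have at most `n ^ 2 / 4 + C n` edges.
-/

set_option autoImplicit false

namespace Pool.Agent.H.MP_4bcbbd_co.SO

open Finset

variable {V : Type*} [DecidableEq V] {a : V → V → ℝ} {K : ℝ}

/-- the number of ordered edges of a union -/
theorem EE_union3 (h : Adj a) (S A B : Finset V) (hA : A ⊆ S) (hB : B ⊆ S \ A) :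
    EE a S ≤ EE a A + EE a B + 2 * (A.card * B.card) + 2 * (((S \ A) \ B).card * S.card) := by
  obtain ⟨Z, hZ⟩ : ∃ Z, Z = (S \ A) \ B := ⟨_, rfl⟩
  rw [← hZ]
  have split : ∀ F : V → ℝ, ∑ x ∈ S, F x = ∑ x ∈ A, F x + (∑ x ∈ B, F x + ∑ x ∈ Z, F x) := by
    intro F
    rw [← sum_sdiff hA, add_comm, ← sum_sdiff hB, hZ]
    ring
  have e0 : EE a S = ∑ x ∈ A, ∑ y ∈ S, a x y + (∑ x ∈ B, ∑ y ∈ S, a x y +
      ∑ x ∈ Z, ∑ y ∈ S, a x y) := split _
  have e1 : ∀ x, ∑ y ∈ S, a x y = ∑ y ∈ A, a x y + (∑ y ∈ B, a x y + ∑ y ∈ Z, a x y) :=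
    fun x => split _
  have b1 : ∑ x ∈ Z, ∑ y ∈ S, a x y ≤ Z.card * S.card := by
    calc _ ≤ ∑ _x ∈ Z, (S.card : ℝ) := sum_le_sum fun x _ => h.sum_le S x
      _ = _ := by rw [sum_const, nsmul_eq_mul]
  have b2 : ∑ x ∈ A, ∑ y ∈ B, a x y ≤ A.card * B.card := by
    calc _ ≤ ∑ _x ∈ A, (B.card : ℝ) := sum_le_sum fun x _ => h.sum_le B x
      _ = _ := by rw [sum_const, nsmul_eq_mul]
  have b3 : ∑ x ∈ B, ∑ y ∈ A, a x y ≤ A.card * B.card := by
    rw [mul_comm]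
    calc _ ≤ ∑ _x ∈ B, (A.card : ℝ) := sum_le_sum fun x _ => h.sum_le A x
      _ = _ := by rw [sum_const, nsmul_eq_mul]
  have b4 : ∑ x ∈ A, ∑ y ∈ Z, a x y + ∑ x ∈ B, ∑ y ∈ Z, a x y ≤ Z.card * S.card := by
    have c1 : ∑ x ∈ A, ∑ y ∈ Z, a x y + ∑ x ∈ B, ∑ y ∈ Z, a x y ≤
        ∑ x ∈ S, ∑ y ∈ Z, a x y := by
      rw [split fun x => ∑ y ∈ Z, a x y]
      have : 0 ≤ ∑ x ∈ Z, ∑ y ∈ Z, a x y := h.EE_nonneg Z
      linarith
    have c2 : ∑ x ∈ S, ∑ y ∈ Z, a x y ≤ Z.card * S.card := by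
      rw [mul_comm]
      calc _ ≤ ∑ _x ∈ S, (Z.card : ℝ) := sum_le_sum fun x _ => h.sum_le Z x
        _ = _ := by rw [sum_const, nsmul_eq_mul]
    exact c1.trans c2
  rw [e0]
  simp only [e1, sum_add_distrib] at b1 ⊢
  unfold EE
  linarith

theorem dense_case (h : Adj a) (hK : 0 ≤ K) (hT : Tri a K) {M : ℝ} (hM : M = 2048 ^ 3)
    (S : Finset V) (hdeg : ∀ v ∈ S, ((S.card : ℝ) / 2 - 1 / 4) ≤ ∑ y ∈ S, a v y)
    (hm : 8 * (K + 3) * (8 * M) ^ 3 < S.card) :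
    EE a S ≤ (S.card : ℝ) ^ 2 / 2 + (3 * K + 12 * M) * S.card := by
  classical
  have hMpos : 0 < M := by rw [hM]; norm_num
  have hM1 : 1000 ≤ M := by rw [hM]; norm_num
  obtain ⟨m, hmdef⟩ : ∃ m : ℝ, m = S.card := ⟨_, rfl⟩
  rw [← hmdef] at hdeg hm ⊢
  have hbig : 4 * M * (K + 3) ≤ 8 * (K + 3) * (8 * M) ^ 3 := by
    have h1 : M ≤ M ^ 3 := by
      have : (1 : ℝ) ≤ M ^ 2 := by nlinarith
      nlinarith
    have h2 : 0 ≤ K + 3 := by linarith
    nlinarith [mul_le_mul_of_nonneg_left h1 h2]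
  have hm1 : 12 * M ≤ m := by nlinarith
  have hmK : 4 * M * K ≤ m := by nlinarith
  have hm2 : 12000 ≤ m := by linarith
  have hm0 : 0 < m := by linarith
  -- the vertex `v0`
  obtain ⟨v0, hv0, hE0⟩ := exists_v0 h hK hT S (ε := 1 / (8 * M)) (by positivity) (by
    rw [← hmdef, div_pow, one_pow, div_mul_eq_mul_div, one_mul, lt_div_iff₀ (by positivity)]
    exact hm)
  rw [← hmdef] at hE0
  set A0 : Finset V := S.filter fun x => a v0 x = 1 with hA0
  set B0 : Finset V := S \ A0 with hB0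
  have hA0S : A0 ⊆ S := filter_subset _ _
  have hB0S : B0 ⊆ S := sdiff_subset
  obtain ⟨α, hα⟩ : ∃ α : ℝ, α = A0.card := ⟨_, rfl⟩
  obtain ⟨β, hβ⟩ : ∃ β : ℝ, β = B0.card := ⟨_, rfl⟩
  have hαβ : α + β = m := by
    rw [hα, hβ, hmdef]
    have := card_sdiff_add_card_eq_card hA0S
    rw [← hB0] at this
    exact_mod_cast (by omega : A0.card + B0.card = S.card)
  have hdv0 : ∑ y ∈ S, a v0 y = α := by
    have : ∀ y ∈ S, a v0 y = if a v0 y = 1 then 1 else 0 := by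
      intro y _
      rcases h.or v0 y with e | e <;> rw [e] <;> norm_num
    rw [sum_congr rfl this, ← sum_filter, sum_const, nsmul_eq_mul, mul_one, hα]
  have hα1 : m / 2 - 1 / 4 ≤ α := by rw [← hdv0]; exact hdeg v0 hv0
  have hEA : EE a A0 ≤ m ^ 2 / (8 * M) := by
    have e1 : EE a A0 = ∑ x ∈ S, ∑ y ∈ S, a x y * (a v0 x * a v0 y) := by
      unfold EE
      rw [hA0, sum_filter]
      refine sum_congr rfl fun x _ => ?_
      rw [sum_filter]
      rcases h.or v0 x with e | e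
      · rw [e]
        simp
      · rw [e, if_pos rfl]
        refine sum_congr rfl fun y _ => ?_
        rcases h.or v0 y with e' | e' <;> rw [e'] <;> simp
    rw [e1]
    refine hE0.trans (le_of_eq ?_)
    ring
  have hAB : α * (m / 2 - 1 / 4) - m ^ 2 / (8 * M) ≤ ∑ x ∈ A0, ∑ y ∈ B0, a x y := by
    have e1 : ∑ x ∈ A0, ∑ y ∈ S, a x y = ∑ x ∈ A0, ∑ y ∈ B0, a x y + EE a A0 := by
      unfold EE
      rw [← sum_add_distrib]
      refine sum_congr rfl fun x _ => ?_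
      rw [hB0, sum_sdiff hA0S]
    have e2 : α * (m / 2 - 1 / 4) ≤ ∑ x ∈ A0, ∑ y ∈ S, a x y := by
      calc α * (m / 2 - 1 / 4) = ∑ _x ∈ A0, (m / 2 - 1 / 4) := by
            rw [sum_const, nsmul_eq_mul, hα]
        _ ≤ _ := sum_le_sum fun x hx => hdeg x (hA0S hx)
    linarith
  have hABle : ∑ x ∈ A0, ∑ y ∈ B0, a x y ≤ α * β := by
    calc _ ≤ ∑ _x ∈ A0, (B0.card : ℝ) := sum_le_sum fun x _ => h.sum_le B0 x
      _ = _ := by rw [sum_const, nsmul_eq_mul, hα, hβ]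
  have hαm : α ≤ m := by
    have : 0 ≤ β := by rw [hβ]; positivity
    linarith
  have hsmall : m ^ 2 / (8 * M) ≤ m ^ 2 / 8000 := by
    apply div_le_div_of_nonneg_left (by positivity) (by norm_num) (by linarith)
  have hβ1 : m / 2 - 1 / 4 - m / 1000 ≤ β := by
    by_contra hcon
    push Not at hcon
    have h1 : α * β ≤ α * (m / 2 - 1 / 4 - m / 1000) :=
      mul_le_mul_of_nonneg_left hcon.le (by linarith)
    have h2 : α * (m / 1000) ≤ m ^ 2 / 8000 := by linarith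
    have h3 : (m / 2 - 1 / 4) * (m / 1000) ≤ α * (m / 1000) :=
      mul_le_mul_of_nonneg_right hα1 (by positivity)
    nlinarith
  have hmiss : ∑ x ∈ A0, ∑ y ∈ B0, (1 - a x y) ≤ m ^ 2 / (4 * M) := by
    have e1 : ∑ x ∈ A0, ∑ y ∈ B0, (1 - a x y) = α * β - ∑ x ∈ A0, ∑ y ∈ B0, a x y := by
      simp only [sum_sub_distrib, sum_const, nsmul_eq_mul, mul_one]
      rw [hα, hβ]
    rw [e1]
    have e2 : α * β ≤ α * (m / 2 + 1 / 4) :=
      mul_le_mul_of_nonneg_left (by linarith) (by linarith)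
    have e3 : α / 2 ≤ m ^ 2 / (8 * M) := by
      rw [le_div_iff₀ (by positivity)]
      nlinarith
    have e4 : m ^ 2 / (4 * M) = m ^ 2 / (8 * M) + m ^ 2 / (8 * M) := by
      field_simp; ring
    linarith
  -- the good vertices
  set A1 : Finset V := S.filter fun x => 7 / 8 * (B0.card : ℝ) ≤ ∑ v ∈ B0, a x v with hA1
  set B1 : Finset V := (S \ A1).filter fun x => 7 / 8 * (A0.card : ℝ) ≤ ∑ v ∈ A0, a x v with hB1
  set Z : Finset V := (S \ A1) \ B1 with hZ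
  have g1 : EE a A1 ≤ 3 * K * A1.card := good_few h hK hT A1 B0
    (fun x hx => (mem_filter.1 hx).2) (by rw [← hβ]; linarith)
  have g2 : EE a B1 ≤ 3 * K * B1.card := good_few h hK hT B1 A0
    (fun x hx => (mem_filter.1 hx).2) (by rw [← hα]; linarith)
  have hdS : ∀ v, ∑ y ∈ S, a v y = ∑ y ∈ B0, a v y + ∑ y ∈ A0, a v y := fun v => by
    rw [hB0, sum_sdiff hA0S]
  have hZS : ∀ v ∈ Z, v ∈ S ∧ ∑ y ∈ B0, a v y < 7 / 8 * β ∧ ∑ y ∈ A0, a v y < 7 / 8 * α := by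
    intro v hv
    rw [hZ, mem_sdiff, mem_sdiff] at hv
    obtain ⟨⟨hvS, hvA⟩, hvB⟩ := hv
    refine ⟨hvS, ?_, ?_⟩
    · by_contra hcon
      exact hvA (mem_filter.2 ⟨hvS, by rw [← hβ]; linarith⟩)
    · by_contra hcon
      exact hvB (mem_filter.2 ⟨mem_sdiff.2 ⟨hvS, hvA⟩, by rw [← hα]; linarith⟩)
  have g3 : (Z.card : ℝ) ≤ 6 * M := by
    refine bad_few h hK hT S A0 B0 Z hA0S hB0S hmdef hM hm0 hmK ?_ ?_ hmiss
    · intro v hv
      obtain ⟨h1, h2, h3⟩ := hZS v hv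
      have h4 := hdeg v h1
      rw [hdS] at h4
      linarith
    · intro v hv
      obtain ⟨h1, h2, h3⟩ := hZS v hv
      have h4 := hdeg v h1
      rw [hdS] at h4
      linarith
  have hu := EE_union3 h S A1 B1 (filter_subset _ _) (filter_subset _ _)
  rw [← hZ, ← hmdef] at hu
  have hc : (A1.card : ℝ) + B1.card ≤ m := by
    rw [hmdef]
    have c1 := card_sdiff_add_card_eq_card (show A1 ⊆ S from filter_subset _ _)
    have c2 : B1.card ≤ (S \ A1).card := card_le_card (filter_subset _ _)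
    exact_mod_cast (by omega : A1.card + B1.card ≤ S.card)
  have hp : 2 * ((A1.card : ℝ) * B1.card) ≤ m ^ 2 / 2 := by
    have n1 : (0 : ℝ) ≤ A1.card := by positivity
    have n2 : (0 : ℝ) ≤ B1.card := by positivity
    nlinarith [sq_nonneg ((A1.card : ℝ) - B1.card)]
  have hz2 : (Z.card : ℝ) * m ≤ 6 * M * m := mul_le_mul_of_nonneg_right g3 hm0.le
  have hk2 : 3 * K * (A1.card : ℝ) + 3 * K * B1.card ≤ 3 * K * m := by
    have : 3 * K * ((A1.card : ℝ) + B1.card) ≤ 3 * K * m :=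
      mul_le_mul_of_nonneg_left hc (by positivity)
    linarith
  linarith

theorem EE_erase (h : Adj a) (S : Finset V) {v : V} (hv : v ∈ S) :
    EE a (S.erase v) = EE a S - 2 * ∑ y ∈ S, a v y := by
  have e1 : ∀ F : V → ℝ, ∑ x ∈ S, F x = F v + ∑ x ∈ S.erase v, F x := fun F =>
    (add_sum_erase S F hv).symm
  have e2 : ∑ x ∈ S.erase v, a x v = ∑ y ∈ S, a v y := by
    rw [e1 fun y => a v y, h.diag, zero_add]
    exact sum_congr rfl fun x _ => h.symm x v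
  have e3 : EE a S = ∑ y ∈ S, a v y + (∑ x ∈ S.erase v, a x v + EE a (S.erase v)) := by
    unfold EE
    rw [e1 fun x => ∑ y ∈ S, a x y]
    congr 1
    rw [← sum_add_distrib]
    refine sum_congr rfl fun x _ => ?_
    exact e1 _
  rw [e3, e2]
  ring

/-- The graph theorem. -/
theorem graph_bound {K : ℝ} (hK : 0 ≤ K) : ∃ C : ℝ, 0 ≤ C ∧
    ∀ (W : Type) [Fintype W] [DecidableEq W] (a : W → W → ℝ), Adj a → Tri a K →
      EE a univ ≤ (Fintype.card W : ℝ) ^ 2 / 2 + C * Fintype.card W := by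
  obtain ⟨M, hM⟩ : ∃ M : ℝ, M = 2048 ^ 3 := ⟨_, rfl⟩
  have hMpos : 0 < M := by rw [hM]; norm_num
  refine ⟨(3 * K + 12 * M) + 8 * (K + 3) * (8 * M) ^ 3, by positivity, ?_⟩
  intro W _ _ a h hT
  obtain ⟨S, -, hS⟩ := exists_max_image (univ : Finset W).powerset
    (fun S => EE a S - (S.card : ℝ) ^ 2 / 2) ⟨∅, by simp⟩
  have h1 := hS univ (by simp)
  have hSW : (S.card : ℝ) ≤ Fintype.card W := by exact_mod_cast card_le_univ S
  have hdeg : ∀ v ∈ S, ((S.card : ℝ) / 2 - 1 / 4) ≤ ∑ y ∈ S, a v y := by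
    intro v hv
    have h2 := hS (S.erase v) (by simp)
    have h3 : ((S.erase v).card : ℝ) = S.card - 1 := by
      have := card_erase_add_one hv
      have h4 : ((S.erase v).card : ℝ) + 1 = S.card := by exact_mod_cast this
      linarith
    simp only [EE_erase h S hv, h3] at h2
    nlinarith
  have hbound : EE a S ≤ (S.card : ℝ) ^ 2 / 2 +
      ((3 * K + 12 * M) + 8 * (K + 3) * (8 * M) ^ 3) * S.card := by
    have n0 : (0 : ℝ) ≤ S.card := by positivity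
    rcases lt_or_ge (8 * (K + 3) * (8 * M) ^ 3) (S.card : ℝ) with hm | hm
    · have := dense_case h hK hT hM S hdeg hm
      have h5 : 0 ≤ 8 * (K + 3) * (8 * M) ^ 3 * (S.card : ℝ) := by positivity
      linarith
    · have h5 := h.EE_le S
      have h6 : (S.card : ℝ) ^ 2 ≤ 8 * (K + 3) * (8 * M) ^ 3 * S.card := by
        rw [sq]
        exact mul_le_mul_of_nonneg_right hm n0
      have h7 : 0 ≤ (3 * K + 12 * M) * (S.card : ℝ) := by positivity
      have h8 : 0 ≤ (S.card : ℝ) ^ 2 := by positivity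
      linarith
  have h9 : ((3 * K + 12 * M) + 8 * (K + 3) * (8 * M) ^ 3) * (S.card : ℝ) ≤
      ((3 * K + 12 * M) + 8 * (K + 3) * (8 * M) ^ 3) * Fintype.card W :=
    mul_le_mul_of_nonneg_left hSW (by positivity)
  rw [card_univ] at h1
  linarith

end Pool.Agent.H.MP_4bcbbd_co.SO
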