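import Pool.Agent.H.MP_4bcbbd_co.SO.Geo

/-!
MP_4bcbbd_co, second order: general position by a small perturbation.
-/

set_option autoImplicit false

namespace Pool.Agent.H.MP_4bcbbd_co.SO

open Filter Topology

section

variable {N : Type*} [Finite N] [DecidableEq N]

/-- one vector is moved -/
private theorem pert_b (r : N → E 4) (j : N) (v : E 4) {a : N} (h : Fl r a j) :
    ∀ᶠ t in 𝓝 (0 : ℝ), Fl (Function.update r j (r j + t • v)) a j := by
  obtain ⟨α, β, h1, h2, h3, h4, h5⟩ := h
  have haj : a ≠ j := Fl.ne ⟨α, β, h1, h2, h3, h4, h5⟩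
  have c0 : ContinuousAt (fun t : ℝ => (1 + t * β v)⁻¹) 0 := by
    refine ContinuousAt.inv₀ (by fun_prop) ?_
    simp
  have e1 : ∀ᶠ t in 𝓝 (0 : ℝ), 1 + t * β v ≠ 0 := by
    have : ContinuousAt (fun t : ℝ => 1 + t * β v) 0 := by fun_prop
    exact this.eventually_ne (by simp)
  have e2 : ∀ᶠ t in 𝓝 (0 : ℝ), ∀ c, c ≠ a → c ≠ j →
      |α (r c) - t * α v * ((1 + t * β v)⁻¹ * β (r c))| + |(1 + t * β v)⁻¹ * β (r c)| < 1 := by
    rw [eventually_all]
    intro c
    by_cases hca : c = a
    · exact Eventually.of_forall fun t h => absurd hca h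
    by_cases hcj : c = j
    · exact Eventually.of_forall fun t _ h => absurd hcj h
    have h6 := h5 c hca hcj
    have c1 : ContinuousAt (fun t : ℝ => |α (r c) - t * α v * ((1 + t * β v)⁻¹ * β (r c))| +
        |(1 + t * β v)⁻¹ * β (r c)|) 0 := by fun_prop
    have h7 := c1.eventually_lt (continuousAt_const (y := (1 : ℝ))) (by simpa using h6)
    exact h7.mono fun t ht _ _ => ht
  filter_upwards [e1, e2] with t ht1 ht2
  refine ⟨α - (t * α v * (1 + t * β v)⁻¹) • β, (1 + t * β v)⁻¹ • β, ?_, ?_, ?_, ?_, ?_⟩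
  · rw [Function.update_of_ne haj]
    simp [h1, h3]
  · rw [Function.update_self]
    simp only [ContinuousLinearMap.sub_apply, ContinuousLinearMap.smul_apply, map_add, map_smul,
      smul_eq_mul, h2, h4]
    field_simp
    ring
  · rw [Function.update_of_ne haj]
    simp [h3]
  · rw [Function.update_self]
    simp only [ContinuousLinearMap.smul_apply, map_add, map_smul, smul_eq_mul, h4]
    field_simp
  · intro c hca hcj
    rw [Function.update_of_ne hcj]
    have := ht2 c hca hcj
    simp only [ContinuousLinearMap.sub_apply, ContinuousLinearMap.smul_apply, smul_eq_mul]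
    rw [mul_assoc (t * α v)]
    exact this

private theorem pert_o (r : N → E 4) (j : N) (v : E 4) {a b : N} (ha : a ≠ j) (hb : b ≠ j)
    (h : Fl r a b) : ∀ᶠ t in 𝓝 (0 : ℝ), Fl (Function.update r j (r j + t • v)) a b := by
  obtain ⟨α, β, h1, h2, h3, h4, h5⟩ := h
  have h6 := h5 j ha.symm hb.symm
  have c1 : ContinuousAt (fun t : ℝ => |α (r j) + t * α v| + |β (r j) + t * β v|) 0 := by
    fun_prop
  have h7 := c1.eventually_lt (continuousAt_const (y := (1 : ℝ))) (by simpa using h6)
  filter_upwards [h7] with t ht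
  refine ⟨α, β, ?_, ?_, ?_, ?_, ?_⟩
  · rw [Function.update_of_ne ha]; exact h1
  · rw [Function.update_of_ne hb]; exact h2
  · rw [Function.update_of_ne ha]; exact h3
  · rw [Function.update_of_ne hb]; exact h4
  · intro c hca hcb
    by_cases hcj : c = j
    · subst hcj
      rw [Function.update_self]
      simpa using ht
    · rw [Function.update_of_ne hcj]
      exact h5 c hca hcb

theorem pert_one (r : N → E 4) (j : N) (W : Submodule ℝ (E 4)) (hW : W ≠ ⊤) :
    ∃ r' : N → E 4, (∀ i, i ≠ j → r' i = r i) ∧ r' j ∉ W ∧ ∀ a b, Fl r a b → Fl r' a b := by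
  by_cases hj : r j ∈ W
  · obtain ⟨v, hv⟩ : ∃ v, v ∉ W := by
      by_contra hc
      push Not at hc
      exact hW (eq_top_iff.2 fun v _ => hc v)
    have h1 : ∀ᶠ t in 𝓝 (0 : ℝ), ∀ a b, Fl r a b →
        Fl (Function.update r j (r j + t • v)) a b := by
      rw [eventually_all]
      intro a
      rw [eventually_all]
      intro b
      by_cases hab : Fl r a b
      · have h2 : ∀ᶠ t in 𝓝 (0 : ℝ), Fl (Function.update r j (r j + t • v)) a b := by
          by_cases hb : b = j
          · subst hb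
            exact pert_b r b v hab
          · by_cases ha : a = j
            · subst ha
              exact (pert_b r a v hab.symm).mono fun t ht => ht.symm
            · exact pert_o r j v ha hb hab
        exact h2.mono fun t ht _ => ht
      · exact Eventually.of_forall fun t h => absurd h hab
    have h3 : ∀ᶠ t in 𝓝[≠] (0 : ℝ), ∀ a b, Fl r a b →
        Fl (Function.update r j (r j + t • v)) a b := h1.filter_mono nhdsWithin_le_nhds
    obtain ⟨t, ht, ht0⟩ := (h3.and self_mem_nhdsWithin).exists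
    refine ⟨Function.update r j (r j + t • v), fun i hi => Function.update_of_ne hi _ _, ?_, ht⟩
    rw [Function.update_self]
    intro hmem
    have h4 : t • v ∈ W := by
      have := W.sub_mem hmem hj
      rwa [add_sub_cancel_left] at this
    exact hv ((W.smul_mem_iff ht0).1 h4)
  · exact ⟨r, fun _ _ => rfl, hj, fun _ _ h => h⟩

private theorem pert_span {k : ℕ} (hk : k < 4) (u : Fin k → E 4) :
    Submodule.span ℝ (Set.range u) ≠ ⊤ := by
  intro h
  have h1 := finrank_range_le_card (R := ℝ) u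
  rw [Set.finrank, h, finrank_top] at h1
  have h3 : Module.finrank ℝ (E 4) = 4 := by simp
  rw [h3, Fintype.card_fin] at h1
  omega

/-- the three vectors are made independent -/
theorem pert_three (r : N → E 4) (c : Fin 3 → N) (hc : Function.Injective c) :
    ∃ r' : N → E 4, LinearIndependent ℝ (fun j => r' (c j)) ∧ ∀ a b, Fl r a b → Fl r' a b := by
  have n01 : c 0 ≠ c 1 := fun h => absurd (hc h) (by decide)
  have n02 : c 0 ≠ c 2 := fun h => absurd (hc h) (by decide)
  have n12 : c 1 ≠ c 2 := fun h => absurd (hc h) (by decide)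
  obtain ⟨r1, -, b1, f1⟩ := pert_one r (c 2) ⊥ (by
    intro h
    have := pert_span (k := 0) (by norm_num) (fun _ => 0)
    rw [← h] at this
    simp at this)
  obtain ⟨r2, a2, b2, f2⟩ := pert_one r1 (c 1) (Submodule.span ℝ (Set.range ![r1 (c 2)]))
    (pert_span (by norm_num) _)
  obtain ⟨r3, a3, b3, f3⟩ := pert_one r2 (c 0) (Submodule.span ℝ (Set.range ![r2 (c 1), r2 (c 2)]))
    (pert_span (by norm_num) _)
  refine ⟨r3, ?_, fun a b h => f3 _ _ (f2 _ _ (f1 _ _ h))⟩
  have e : (fun j => r3 (c j)) = Matrix.vecCons (r3 (c 0)) ![r2 (c 1), r2 (c 2)] := by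
    funext j
    fin_cases j
    · rfl
    · show r3 (c 1) = r2 (c 1)
      exact a3 _ n01.symm
    · show r3 (c 2) = r2 (c 2)
      exact a3 _ n02.symm
  rw [e]
  refine linearIndependent_fin_cons.2 ⟨?_, b3⟩
  have e2 : ![r2 (c 1), r2 (c 2)] = Matrix.vecCons (r2 (c 1)) ![r1 (c 2)] := by
    rw [a2 (c 2) n12.symm]
  rw [e2]
  refine linearIndependent_fin_cons.2 ⟨?_, b2⟩
  refine LinearIndependent.of_subsingleton 0 ?_
  simpa using b1

theorem pert_all (r : N → E 4) (c : Fin 3 → N) (hli : LinearIndependent ℝ fun j => r (c j))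
    (P : Finset N) (hP : ∀ x ∈ P, ∀ j, c j ≠ x) :
    ∃ r' : N → E 4, (∀ j, r' (c j) = r (c j)) ∧
      (∀ x ∈ P, r' x ∉ Submodule.span ℝ (Set.range fun j => r (c j))) ∧
      ∀ a b, Fl r a b → Fl r' a b := by
  induction P using Finset.induction_on with
  | empty => exact ⟨r, fun _ => rfl, fun x hx => absurd hx (Finset.notMem_empty x), fun _ _ h => h⟩
  | insert y P hy ih =>
    obtain ⟨r1, a1, b1, f1⟩ := ih fun x hx => hP x (Finset.mem_insert_of_mem hx)
    obtain ⟨r2, a2, b2, f2⟩ := pert_one r1 y _ (pert_span (by norm_num) fun j => r (c j))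
    refine ⟨r2, fun j => ?_, fun x hx => ?_, fun a b h => f2 _ _ (f1 _ _ h)⟩
    · rw [a2 _ (hP y (Finset.mem_insert_self y P) j), a1]
    · by_cases hxy : x = y
      · rw [hxy]; exact b2
      · rw [a2 x hxy]
        exact b1 x ((Finset.mem_insert.1 hx).resolve_left hxy)

end

/-- Among the common neighbours of three points there are few full pairs. -/
theorem three_common {N : Type*} [Finite N] (r : N → E 4) (c : Fin 3 → N)
    (hc : Function.Injective c) (P : Finset N) (hfl : ∀ x ∈ P, ∀ j, Fl r (c j) x) :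
    open Classical in
    ((P ×ˢ P).filter fun z : N × N => Fl r z.1 z.2).card ≤ 12 * P.card := by
  classical
  obtain ⟨r1, h1, f1⟩ := pert_three r c hc
  obtain ⟨r2, a2, b2, f2⟩ := pert_all r1 c h1 P fun x hx j => (hfl x hx j).ne
  have e : (fun j => r2 (c j)) = fun j => r1 (c j) := funext a2
  have h3 := geo_card' (r := r2) (P := P) hc (fun x hx j => f2 _ _ (f1 _ _ (hfl x hx j)))
    (by rw [e]; exact h1) (by rw [e]; exact b2)
  refine le_trans (Finset.card_le_card fun z hz => ?_) h3
  rw [Finset.mem_filter] at hz ⊢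
  exact ⟨hz.1, f2 _ _ (f1 _ _ hz.2)⟩

end Pool.Agent.H.MP_4bcbbd_co.SO
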