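import Pool.Agent.H.MP_4bcbbd_co.Main
import Pool.Agent.H.MP_4bcbbd_co.SO.GrC
import Pool.Agent.H.MP_4bcbbd_co.SO.Pert

/-!
MP_4bcbbd_co, second order: the maximal face numbers in dimension four up to a linear error term.
-/

set_option autoImplicit false

namespace Pool.Agent.H.MP_4bcbbd_co.SO

open Finset

/-- full pairs of vertices are full pairs of vectors -/
theorem fl_of_full {n : ℕ} {V : Finset (E 4)} (hV : CSData V) {r : Fin n → E 4} (hr : Reps V r)
    {i j : Fin n} (h : Full V (r i) (r j)) : Fl r i j := by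
  obtain ⟨-, -, ⟨l, hl1, hl2, hl3⟩, ⟨m, hm1, hm2, hm3⟩⟩ := h
  refine ⟨(1 / 2 : ℝ) • (l + m), (1 / 2 : ℝ) • (l - m), ?_, ?_, ?_, ?_, ?_⟩
  · simp [hl1, hm1]; norm_num
  · simp [hl2, hm2]
  · simp [hl1, hm1]
  · simp [hl2, hm2]; norm_num
  · intro c hci hcj
    have e1 := hl3 _ (hr.mem c) (hr.inj c i hci) (hr.inj c j hcj)
    have e2 := hl3 _ (hV.neg _ (hr.mem c)) (hr.anti i c).symm (hr.anti j c).symm
    have e3 := hm3 _ (hr.mem c) (hr.inj c i hci) (hr.anti c j)
    have e4 := hm3 _ (hV.neg _ (hr.mem c)) (hr.anti i c).symm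
      (fun h => hr.inj c j hcj (neg_injective h))
    rw [map_neg] at e2 e4
    simp only [ContinuousLinearMap.smul_apply, ContinuousLinearMap.add_apply,
      ContinuousLinearMap.sub_apply, smul_eq_mul]
    rcases abs_cases (1 / 2 * (l (r c) + m (r c))) with ⟨h1, -⟩ | ⟨h1, -⟩ <;>
      rcases abs_cases (1 / 2 * (l (r c) - m (r c))) with ⟨h2, -⟩ | ⟨h2, -⟩ <;>
      rw [h1, h2] <;> linarith

open Classical in
/-- the adjacency matrix of the graph of full pairs -/
noncomputable def adm {n : ℕ} (G : SimpleGraph (Fin n)) (i j : Fin n) : ℝ :=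
  if G.Adj i j then 1 else 0

theorem adm_adj {n : ℕ} (G : SimpleGraph (Fin n)) : Adj (adm G) where
  or x y := by unfold adm; split_ifs <;> simp
  symm x y := by unfold adm; rw [G.adj_comm]
  diag x := by unfold adm; simp

theorem adm_tri {n : ℕ} {V : Finset (E 4)} (hV : CSData V) {r : Fin n → E 4} (hr : Reps V r) :
    Tri (adm (fullGraph V hV r hr)) 12 := by
  classical
  intro u v w huv huw hvw P hP
  have adj_of : ∀ i j, adm (fullGraph V hV r hr) i j = 1 → Fl r i j := by
    intro i j h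
    unfold adm at h
    split_ifs at h with h'
    · exact fl_of_full hV hr h'.2
    · norm_num at h
  have hc : Function.Injective ![u, v, w] := by
    intro i j hij
    fin_cases i <;> fin_cases j <;> simp_all
  have h1 := three_common r ![u, v, w] hc P (by
    intro x hx j
    obtain ⟨h1, h2, h3⟩ := hP x hx
    fin_cases j
    · exact adj_of _ _ h1
    · exact adj_of _ _ h2
    · exact adj_of _ _ h3)
  have h2 : EE (adm (fullGraph V hV r hr)) P =
      (((P ×ˢ P).filter fun z : Fin n × Fin n =>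
        (fullGraph V hV r hr).Adj z.1 z.2).card : ℝ) := by
    unfold EE adm
    rw [← sum_product', card_filter]
    push_cast
    rfl
  rw [h2]
  have h3 : ((P ×ˢ P).filter fun z : Fin n × Fin n => (fullGraph V hV r hr).Adj z.1 z.2).card ≤
      12 * P.card := by
    refine le_trans (card_le_card fun z hz => ?_) h1
    rw [mem_filter] at hz ⊢
    exact ⟨hz.1, fl_of_full hV hr hz.2.2⟩
  exact_mod_cast h3

theorem upper_linear : ∃ C : ℝ, 0 ≤ C ∧ ∀ (n : ℕ) (V : Finset (E 4)), CSData V →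
    V.card = 2 * n → ((fc V 2).card : ℝ) ≤ 3 / 2 * (n : ℝ) ^ 2 + C * n := by
  classical
  obtain ⟨C, hC0, hC⟩ := graph_bound (K := 12) (by norm_num)
  refine ⟨C, hC0, fun n V hV hn => ?_⟩
  obtain ⟨r, hr⟩ := exists_reps V hV n hn
  have h1 := count_edges V hV r hr
  set G := fullGraph V hV r hr with hG
  have h2 := hC (Fin n) (adm G) (adm_adj G) (adm_tri hV hr)
  rw [Fintype.card_fin] at h2
  have h3 : EE (adm G) univ = 2 * (G.edgeFinset.card : ℝ) := by
    have h4 : ∀ i : Fin n, ∑ j, adm G i j = (G.degree i : ℝ) := by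
      intro i
      unfold adm
      rw [← SimpleGraph.card_neighborFinset_eq_degree, SimpleGraph.neighborFinset_eq_filter,
        card_filter]
      push_cast
      rfl
    unfold EE
    rw [sum_congr rfl fun i _ => h4 i]
    have h5 := G.sum_degrees_eq_twice_card_edges
    exact_mod_cast h5
  rw [h3] at h2
  have h5 : ((fc V 2).card : ℝ) ≤ ((n * (n - 1) + 2 * G.edgeFinset.card : ℕ) : ℝ) := by
    refine Nat.cast_le.2 (h1.trans (le_of_eq ?_))
    exact congrArg (fun k => n * (n - 1) + 2 * k) (count_inst _ _ _)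
  push_cast at h5
  have h6 : (n : ℝ) * ((n - 1 : ℕ) : ℝ) ≤ (n : ℝ) ^ 2 := by
    have h7 : ((n - 1 : ℕ) : ℝ) ≤ (n : ℝ) := Nat.cast_le.2 (Nat.sub_le n 1)
    have h8 : (0 : ℝ) ≤ n := Nat.cast_nonneg n
    nlinarith
  linarith

/-- the set of the values of the face number in terms of the combinatorial data -/
private def soSet (i n : ℕ) : Set ℕ :=
  {m | ∃ V : Finset (E 4), CSData V ∧ Simp V ∧ V.card = 2 * n ∧ m = (fc V (i + 1)).card}

private theorem so_maxFaces (i n : ℕ) : maxFaces i 4 n = sSup (soSet i n) := by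
  unfold maxFaces
  congr 1
  ext m
  constructor
  · rintro ⟨P, hP, hs, hS, hc, hm⟩
    obtain ⟨V, hV, rfl⟩ := exists_data (by norm_num) hP hs
    have hS' : Simp V := (simp_iff (by norm_num) hV).1 hS
    refine ⟨V, hV, hS', ?_, ?_⟩
    · rw [extremePoints_of_data hV, Set.ncard_coe_finset] at hc
      exact hc
    · rw [hm, faceNum_eq (by norm_num) hV hS']
  · rintro ⟨V, hV, hS, hc, hm⟩
    obtain ⟨h1, h2⟩ := isPolytope_of_data (by norm_num) hV
    refine ⟨convexHull ℝ (V : Set (E 4)), h1, h2, (simp_iff (by norm_num) hV).2 hS, ?_, ?_⟩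
    · rw [extremePoints_of_data hV, Set.ncard_coe_finset]
      exact hc
    · rw [hm, faceNum_eq (by norm_num) hV hS]

private theorem so_bdd (i n : ℕ) : BddAbove (soSet i n) := by
  refine ⟨(2 * n).choose (i + 1), ?_⟩
  rintro m ⟨V, -, -, hc, rfl⟩
  rw [← hc, ← Finset.card_powersetCard]
  apply Finset.card_le_card
  intro W hW
  rw [mem_fc] at hW
  exact Finset.mem_powersetCard.2 ⟨hW.1, hW.2.1⟩

theorem attained (i : ℕ) {n : ℕ} (hn : 4 ≤ n) :
    ∃ V : Finset (E 4), CSData V ∧ Simp V ∧ V.card = 2 * n ∧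
      maxFaces i 4 n = (fc V (i + 1)).card := by
  rw [so_maxFaces]
  have hne : (soSet i n).Nonempty := by
    obtain ⟨V, hV, hS, hc, -⟩ := lower n hn
    exact ⟨_, V, hV, hS, hc, rfl⟩
  exact Nat.sSup_mem hne (so_bdd i n)

theorem main_linear : ∃ C : ℝ, ∀ n : ℕ, 4 ≤ n →
    (maxFaces 1 4 n : ℝ) ≤ 3 / 2 * (n : ℝ) ^ 2 + C * n := by
  obtain ⟨C, -, hC⟩ := upper_linear
  refine ⟨C, fun n hn => ?_⟩
  obtain ⟨V, hV, hS, hc, h⟩ := attained 1 hn
  rw [h]
  exact hC n V hV hc

end Pool.Agent.H.MP_4bcbbd_co.SO
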