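import Pool.Agent.H.MP_4bcbbd_co.SO.Top
import Pool.Agent.H.MP_4bcbbd_co.Base

/-!
MP_4bcbbd_co, second order: full pairs among the common neighbours of three points.
-/

set_option autoImplicit false

namespace Pool.Agent.H.MP_4bcbbd_co.SO

open Filter Topology

/-- full pairs of a family of vectors -/
def Fl {N : Type*} (r : N → E 4) (a b : N) : Prop :=
  ∃ α β : E 4 →L[ℝ] ℝ, α (r a) = 1 ∧ α (r b) = 0 ∧ β (r a) = 0 ∧ β (r b) = 1 ∧
    ∀ c, c ≠ a → c ≠ b → |α (r c)| + |β (r c)| < 1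

theorem Fl.ne {N : Type*} {r : N → E 4} {a b : N} (h : Fl r a b) : a ≠ b := by
  rintro rfl
  obtain ⟨α, β, h1, h2, -⟩ := h
  rw [h1] at h2
  exact one_ne_zero h2

theorem Fl.symm {N : Type*} {r : N → E 4} {a b : N} (h : Fl r a b) : Fl r b a := by
  obtain ⟨α, β, h1, h2, h3, h4, h5⟩ := h
  exact ⟨β, α, h4, h3, h2, h1, fun c hb ha => by rw [add_comm]; exact h5 c ha hb⟩

theorem abs4 (s t u v a b c d : ℝ) :
    |s * a + t * b + u * c + v * d| ≤ |s| * |a| + |t| * |b| + |u| * |c| + |v| * |d| := by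
  rw [← abs_mul, ← abs_mul, ← abs_mul, ← abs_mul]
  exact (abs_add_le _ _).trans (add_le_add_left ((abs_add_le _ _).trans
    (add_le_add_left (abs_add_le _ _) _)) _)

section

variable {N : Type*} {r : N → E 4} {c : Fin 3 → N} {P : Finset N} {e : E 4} {X : N → Fin 3 → ℝ}
  {g : N → ℝ}

theorem geo_id (hX : ∀ x ∈ P, g x • r x = e + ∑ j, X x j • r (c j)) (φ : E 4 →L[ℝ] ℝ) {y : N}
    (hy : y ∈ P) : g y * φ (r y) = φ e + ∑ j, X y j * φ (r (c j)) := by
  have := congrArg φ (hX y hy)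
  simpa using this

theorem geo_HT (hc : Function.Injective c) (hfl : ∀ x ∈ P, ∀ j, Fl r (c j) x)
    (hg : ∀ x ∈ P, g x ≠ 0) (hX : ∀ x ∈ P, g x • r x = e + ∑ j, X x j • r (c j)) :
    HT P X fun x => |g x| := by
  intro x hx y hy z hz hyx hzx a b hab l i k hli hlk hik
  obtain ⟨α, β, h1, h2, h3, h4, h5⟩ := hfl x hx l
  have hcP : ∀ j, ∀ y ∈ P, c j ≠ y := fun j y hy => (hfl y hy j).ne
  have id2 : ∀ φ : E 4 →L[ℝ] ℝ, a * (g y * φ (r y)) + b * (g z * φ (r z)) -
      (a + b) * (g x * φ (r x)) = 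
      (a * (X y l - X x l) + b * (X z l - X x l)) * φ (r (c l)) +
      (a * (X y i - X x i) + b * (X z i - X x i)) * φ (r (c i)) +
      (a * (X y k - X x k) + b * (X z k - X x k)) * φ (r (c k)) := by
    intro φ
    rw [geo_id hX φ hx, geo_id hX φ hy, geo_id hX φ hz, sum3 _ hli hlk hik, sum3 _ hli hlk hik,
      sum3 _ hli hlk hik]
    ring
  have e1 := id2 α
  have e2 := id2 β
  rw [h1, h2] at e1
  rw [h3, h4] at e2
  obtain ⟨Ml, hMl⟩ : ∃ Ml, Ml = a * (X y l - X x l) + b * (X z l - X x l) := ⟨_, rfl⟩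
  obtain ⟨Mi, hMi⟩ : ∃ Mi, Mi = a * (X y i - X x i) + b * (X z i - X x i) := ⟨_, rfl⟩
  obtain ⟨Mk, hMk⟩ : ∃ Mk, Mk = a * (X y k - X x k) + b * (X z k - X x k) := ⟨_, rfl⟩
  rw [← hMl, ← hMi, ← hMk] at e1 e2 ⊢
  have f1 : |Ml| ≤ |a * g y| * |α (r y)| + |b * g z| * |α (r z)| + |-Mi| * |α (r (c i))| +
      |-Mk| * |α (r (c k))| := by
    refine le_trans (le_of_eq ?_) (abs4 _ _ _ _ _ _ _ _)
    congr 1
    linarith
  have f2 : |(a + b) * g x| ≤ |a * g y| * |β (r y)| + |b * g z| * |β (r z)| +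
      |-Mi| * |β (r (c i))| + |-Mk| * |β (r (c k))| := by
    refine le_trans (le_of_eq ?_) (abs4 _ _ _ _ _ _ _ _)
    congr 1
    linarith
  rw [abs_neg, abs_neg] at f1 f2
  rw [← abs_mul, ← abs_mul, ← abs_mul]
  have s1 := h5 y (hcP l y hy).symm hyx
  have s2 := h5 z (hcP l z hz).symm hzx
  have s3 := h5 (c i) (fun h => hli (hc h).symm) (hcP i x hx)
  have s4 := h5 (c k) (fun h => hlk (hc h).symm) (hcP k x hx)
  have t1 := mul_le_mul_of_nonneg_left s1.le (abs_nonneg (a * g y))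
  have t2 := mul_le_mul_of_nonneg_left s2.le (abs_nonneg (b * g z))
  have t3 := mul_le_mul_of_nonneg_left s3.le (abs_nonneg Mi)
  have t4 := mul_le_mul_of_nonneg_left s4.le (abs_nonneg Mk)
  rcases hab with ha | hb
  · have t1' := mul_lt_mul_of_pos_left s1 (abs_pos.2 (mul_ne_zero ha (hg y hy)))
    linarith
  · have t2' := mul_lt_mul_of_pos_left s2 (abs_pos.2 (mul_ne_zero hb (hg z hz)))
    linarith

theorem geo_HJ (hfl : ∀ x ∈ P, ∀ j, Fl r (c j) x) (hg : ∀ x ∈ P, g x ≠ 0)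
    (hX : ∀ x ∈ P, g x • r x = e + ∑ j, X x j • r (c j)) {p q : N} (hp : p ∈ P) (hq : q ∈ P)
    (h : Fl r p q) : HJ P X (fun x => |g x|) p q := by
  obtain ⟨α, β, h1, h2, h3, h4, h5⟩ := h
  obtain ⟨s, hs, hs2⟩ := exists_sign (g p) (hg p hp)
  obtain ⟨s', hs', hs2'⟩ := exists_sign (g q) (hg q hq)
  have gp : g p * s = |g p| := by
    rw [mul_comm, ← abs_of_pos hs2, abs_mul, hs, one_mul]
  have gq : g q * s' = |g q| := by
    rw [mul_comm, ← abs_of_pos hs2', abs_mul, hs', one_mul]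
  have hcP : ∀ j, ∀ y ∈ P, c j ≠ y := fun j y hy => (hfl y hy j).ne
  have bd : ∀ z, z ≠ p → z ≠ q → |s * α (r z) + s' * β (r z)| < 1 ∧
      |s * α (r z) - s' * β (r z)| < 1 := by
    intro z hzp hzq
    have := h5 z hzp hzq
    constructor
    · refine (abs_add_le _ _).trans_lt ?_
      rw [abs_mul, abs_mul, hs, hs', one_mul, one_mul]
      exact this
    · refine (abs_sub _ _).trans_lt ?_
      rw [abs_mul, abs_mul, hs, hs', one_mul, one_mul]
      exact this
  have key : ∀ (φ : E 4 →L[ℝ] ℝ) {z : N}, z ∈ P → ∀ t : ℝ, 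
      (1 - t) * (g p * φ (r p)) + t * (g q * φ (r q)) +
        ∑ j, φ (r (c j)) * ((X z j - X p j) - t * (X q j - X p j)) = g z * φ (r z) := by
    intro φ z hz t
    rw [geo_id hX φ hz, geo_id hX φ hp, geo_id hX φ hq, Fin.sum_univ_three, Fin.sum_univ_three,
      Fin.sum_univ_three, Fin.sum_univ_three]
    ring
  refine ⟨fun j => s * α (r (c j)) + s' * β (r (c j)), fun j => s * α (r (c j)) - s' * β (r (c j)),
    fun j => (bd _ (hcP j p hp) (hcP j q hq)).1, fun j => (bd _ (hcP j p hp) (hcP j q hq)).2, ?_⟩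
  intro z hz hzp hzq t
  have k1 := key (s • α + s' • β) hz t
  have k2 := key (s • α - s' • β) hz t
  simp only [ContinuousLinearMap.add_apply, ContinuousLinearMap.sub_apply,
    ContinuousLinearMap.smul_apply, smul_eq_mul, h1, h2, h3, h4, mul_one, mul_zero, add_zero,
    zero_add, sub_zero, zero_sub, mul_neg] at k1 k2
  rw [gp, gq] at k1 k2
  constructor
  · show |(1 - t) * |g p| + t * |g q| + _| < |g z|
    rw [k1, abs_mul]
    have := mul_lt_mul_of_pos_left (bd z hzp hzq).1 (abs_pos.2 (hg z hz))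
    linarith
  · show |(1 - t) * |g p| - t * |g q| + _| < |g z|
    rw [sub_eq_add_neg, k2, abs_mul]
    have := mul_lt_mul_of_pos_left (bd z hzp hzq).2 (abs_pos.2 (hg z hz))
    linarith

open Classical in
theorem geo_card (hc : Function.Injective c) (hfl : ∀ x ∈ P, ∀ j, Fl r (c j) x)
    (hg : ∀ x ∈ P, g x ≠ 0) (hX : ∀ x ∈ P, g x • r x = e + ∑ j, X x j • r (c j)) :
    ((P ×ˢ P).filter fun z : N × N => Fl r z.1 z.2).card ≤ 12 * P.card := by
  have h := pair_card (geo_HT hc hfl hg hX) (fun x y => Fl r x y)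
    fun x hx y hy _ h => geo_HJ hfl hg hX hx hy h
  refine le_trans (Finset.card_le_card fun z hz => ?_) h
  rw [Finset.mem_filter] at hz ⊢
  exact ⟨hz.1, hz.2.ne.symm, hz.2⟩

end

/-- the same if the vectors are in general position -/
theorem geo_card' {N : Type*} {r : N → E 4} {c : Fin 3 → N} {P : Finset N}
    (hc : Function.Injective c) (hfl : ∀ x ∈ P, ∀ j, Fl r (c j) x)
    (hli : LinearIndependent ℝ fun j => r (c j))
    (hgp : ∀ x ∈ P, r x ∉ Submodule.span ℝ (Set.range fun j => r (c j))) :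
    open Classical in
    ((P ×ˢ P).filter fun z : N × N => Fl r z.1 z.2).card ≤ 12 * P.card := by
  classical
  rcases P.eq_empty_or_nonempty with rfl | ⟨x0, hx0⟩
  · simp
  · have hW : Module.finrank ℝ (Submodule.span ℝ (Set.range fun j => r (c j))) = 3 := by
      rw [finrank_span_eq_card hli]
      rfl
    set W := Submodule.span ℝ (Set.range fun j => r (c j)) with hWdef
    have htop : W ⊔ Submodule.span ℝ {r x0} = ⊤ := by
      apply Submodule.eq_top_of_finrank_eq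
      have h1 : W < W ⊔ Submodule.span ℝ {r x0} := by
        refine lt_of_le_of_ne le_sup_left fun h => hgp x0 hx0 ?_
        rw [h]
        exact Submodule.mem_sup_right (Submodule.mem_span_singleton_self _)
      have h2 := Submodule.finrank_lt_finrank_of_lt h1
      have h3 : Module.finrank ℝ (E 4) = 4 := by simp
      have h4 := Submodule.finrank_le (W ⊔ Submodule.span ℝ {r x0})
      rw [h3] at h4 ⊢
      omega
    have hex : ∀ x ∈ P, ∃ g : ℝ, g ≠ 0 ∧ ∃ X : Fin 3 → ℝ, g • r x = r x0 + ∑ j, X j • r (c j) := by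
      intro x hx
      have h1 : r x ∈ W ⊔ Submodule.span ℝ {r x0} := by rw [htop]; trivial
      obtain ⟨u, hu, v, hv, huv⟩ := Submodule.mem_sup.1 h1
      obtain ⟨b, rfl⟩ := Submodule.mem_span_singleton.1 hv
      obtain ⟨X, hX⟩ := (Submodule.mem_span_range_iff_exists_fun ℝ).1 hu
      have hb : b ≠ 0 := by
        rintro rfl
        rw [zero_smul, add_zero] at huv
        exact hgp x hx (huv ▸ hu)
      refine ⟨b⁻¹, inv_ne_zero hb, fun j => b⁻¹ * X j, ?_⟩
      rw [← huv, ← hX, smul_add, smul_smul, inv_mul_cancel₀ hb, one_smul, Finset.smul_sum,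
        add_comm]
      congr 1
      refine Finset.sum_congr rfl fun j _ => ?_
      rw [smul_smul]
    choose! g hg X hX using hex
    exact geo_card hc hfl hg hX

end Pool.Agent.H.MP_4bcbbd_co.SO
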