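import Mathlib

/-!
MP_4bcbbd_co, second order: graphs in which the common neighbourhoods of three vertices span few
edges; counting of triples.
-/

set_option autoImplicit false

namespace Pool.Agent.H.MP_4bcbbd_co.SO

open Finset

variable {V : Type*} [DecidableEq V]

/-- adjacency matrices -/
structure Adj (a : V → V → ℝ) : Prop where
  or : ∀ x y, a x y = 0 ∨ a x y = 1
  symm : ∀ x y, a x y = a y x
  diag : ∀ x, a x x = 0

/-- the number of ordered edges in `S` -/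
def EE (a : V → V → ℝ) (S : Finset V) : ℝ := ∑ x ∈ S, ∑ y ∈ S, a x y

/-- common neighbourhoods of three vertices span few edges -/
def Tri (a : V → V → ℝ) (K : ℝ) : Prop :=
  ∀ u v w : V, u ≠ v → u ≠ w → v ≠ w → ∀ P : Finset V,
    (∀ x ∈ P, a u x = 1 ∧ a v x = 1 ∧ a w x = 1) → EE a P ≤ K * P.card

omit [DecidableEq V] in
theorem Adj.nonneg {a : V → V → ℝ} (h : Adj a) (x y : V) : 0 ≤ a x y := by
  rcases h.or x y with e | e <;> rw [e]
  exact zero_le_one

omit [DecidableEq V] in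
theorem Adj.le_one {a : V → V → ℝ} (h : Adj a) (x y : V) : a x y ≤ 1 := by
  rcases h.or x y with e | e <;> rw [e]
  exact zero_le_one

omit [DecidableEq V] in
theorem Adj.EE_nonneg {a : V → V → ℝ} (h : Adj a) (S : Finset V) : 0 ≤ EE a S :=
  sum_nonneg fun _ _ => sum_nonneg fun _ _ => h.nonneg _ _

omit [DecidableEq V] in
theorem Adj.EE_le {a : V → V → ℝ} (h : Adj a) (S : Finset V) : EE a S ≤ (S.card : ℝ) ^ 2 := by
  calc EE a S ≤ ∑ _x ∈ S, ∑ _y ∈ S, (1 : ℝ) :=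
        sum_le_sum fun _ _ => sum_le_sum fun _ _ => h.le_one _ _
    _ = (S.card : ℝ) ^ 2 := by simp [sq]

omit [DecidableEq V] in
theorem Adj.sum_le {a : V → V → ℝ} (h : Adj a) (S : Finset V) (v : V) :
    ∑ y ∈ S, a v y ≤ S.card := by
  calc ∑ y ∈ S, a v y ≤ ∑ _y ∈ S, (1 : ℝ) := sum_le_sum fun _ _ => h.le_one _ _
    _ = S.card := by simp

theorem cube_ge {s t : ℝ} (ht : 0 ≤ t) (hs : 0 ≤ s) : s ^ 2 * t - s ^ 3 ≤ t ^ 3 := by
  rcases le_total s t with h | h
  · have h1 : s ^ 2 ≤ t ^ 2 := pow_le_pow_left₀ hs h 2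
    have h2 : s ^ 2 * t ≤ t ^ 2 * t := mul_le_mul_of_nonneg_right h1 ht
    have h3 : 0 ≤ s ^ 3 := by positivity
    nlinarith
  · have h1 : s ^ 2 * t ≤ s ^ 2 * s := mul_le_mul_of_nonneg_left h (by positivity)
    have h3 : 0 ≤ t ^ 3 := by positivity
    nlinarith

/-- lower bound for a sum of cubes -/
theorem cubes_ge {ι : Type*} (Q : Finset ι) (w z : ι → ℝ) (hw : ∀ q ∈ Q, 0 ≤ w q)
    (hz : ∀ q ∈ Q, 0 ≤ z q) {s : ℝ} (hs : 0 ≤ s) :
    s ^ 2 * ∑ q ∈ Q, w q * z q - s ^ 3 * ∑ q ∈ Q, w q ≤ ∑ q ∈ Q, w q * z q ^ 3 := by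
  rw [mul_sum, mul_sum, ← sum_sub_distrib]
  refine sum_le_sum fun q hq => ?_
  have := mul_le_mul_of_nonneg_left (cube_ge (hz q hq) hs) (hw q hq)
  linarith

/-- upper bound for a sum of cubes of the numbers of common neighbours in `Z` -/
theorem cubes_le {ι : Type*} (Q : Finset ι) (w : ι → ℝ) (hw : ∀ q ∈ Q, 0 ≤ w q)
    (Z : Finset V) (f : V → ι → ℝ) (hf : ∀ v ∈ Z, ∀ q ∈ Q, 0 ≤ f v q ∧ f v q ≤ 1) {U : ℝ}
    (hU0 : 0 ≤ U) (hU : ∀ u ∈ Z, ∀ v ∈ Z, ∀ t ∈ Z, u ≠ v → u ≠ t → v ≠ t →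
      ∑ q ∈ Q, w q * (f u q * f v q * f t q) ≤ U) :
    ∑ q ∈ Q, w q * (∑ v ∈ Z, f v q) ^ 3 ≤
      (Z.card : ℝ) ^ 3 * U + 3 * (Z.card : ℝ) ^ 2 * ∑ q ∈ Q, w q := by
  obtain ⟨W, hW⟩ : ∃ W, W = ∑ q ∈ Q, w q := ⟨_, rfl⟩
  have hW0 : 0 ≤ W := hW ▸ sum_nonneg hw
  have e1 : ∑ q ∈ Q, w q * (∑ v ∈ Z, f v q) ^ 3 =
      ∑ u ∈ Z, ∑ v ∈ Z, ∑ t ∈ Z, ∑ q ∈ Q, w q * (f u q * f v q * f t q) := by
    have e2 : ∀ q ∈ Q, w q * (∑ v ∈ Z, f v q) ^ 3 =
        ∑ u ∈ Z, ∑ v ∈ Z, ∑ t ∈ Z, w q * (f u q * f v q * f t q) := by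
      intro q _
      rw [pow_succ, sq, sum_mul_sum, sum_mul, mul_sum]
      refine sum_congr rfl fun u _ => ?_
      rw [sum_mul, mul_sum]
      refine sum_congr rfl fun v _ => ?_
      rw [mul_sum, mul_sum]
    rw [sum_congr rfl e2, sum_comm]
    refine sum_congr rfl fun u _ => ?_
    rw [sum_comm]
    refine sum_congr rfl fun v _ => ?_
    rw [sum_comm]
  have e3 : ∀ u ∈ Z, ∀ v ∈ Z, ∀ t ∈ Z, ∑ q ∈ Q, w q * (f u q * f v q * f t q) ≤
      U + ((if u = v then W else 0) + (if u = t then W else 0) + (if v = t then W else 0)) := by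
    intro u hu v hv t ht
    have h1 : ∑ q ∈ Q, w q * (f u q * f v q * f t q) ≤ W := by
      rw [hW]
      refine sum_le_sum fun q hq => ?_
      obtain ⟨a0, a1⟩ := hf u hu q hq
      obtain ⟨b0, b1⟩ := hf v hv q hq
      obtain ⟨c0, c1⟩ := hf t ht q hq
      have h2 : f u q * f v q * f t q ≤ 1 := by
        have h3 : f u q * f v q ≤ 1 := mul_le_one₀ a1 b0 b1
        exact mul_le_one₀ h3 c0 c1
      have := mul_le_mul_of_nonneg_left h2 (hw q hq)
      linarith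
    by_cases h1' : u = v
    · rw [if_pos h1']
      split_ifs <;> linarith
    · by_cases h2' : u = t
      · rw [if_pos h2']
        split_ifs <;> linarith
      · by_cases h3' : v = t
        · rw [if_pos h3']
          split_ifs; linarith
        · rw [if_neg h1', if_neg h2', if_neg h3']
          have := hU u hu v hv t ht h1' h2' h3'
          linarith
  rw [e1, ← hW]
  calc ∑ u ∈ Z, ∑ v ∈ Z, ∑ t ∈ Z, ∑ q ∈ Q, w q * (f u q * f v q * f t q) ≤
      ∑ u ∈ Z, ∑ v ∈ Z, ∑ t ∈ Z,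
        (U + ((if u = v then W else 0) + (if u = t then W else 0) + (if v = t then W else 0))) :=
        sum_le_sum fun u hu => sum_le_sum fun v hv => sum_le_sum fun t ht => e3 u hu v hv t ht
    _ = (Z.card : ℝ) ^ 3 * U + 3 * (Z.card : ℝ) ^ 2 * W := by
      have s1 : ∑ u ∈ Z, ∑ v ∈ Z, ∑ _t ∈ Z, (if u = v then W else 0) = (Z.card : ℝ) ^ 2 * W := by
        have : ∀ u ∈ Z, ∑ v ∈ Z, ∑ _t ∈ Z, (if u = v then W else 0) = (Z.card : ℝ) * W := by
          intro u hu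
          simp [hu]
        rw [sum_congr rfl this, sum_const, nsmul_eq_mul]
        ring
      have s2 : ∑ u ∈ Z, ∑ _v ∈ Z, ∑ t ∈ Z, (if u = t then W else 0) = (Z.card : ℝ) ^ 2 * W := by
        have : ∀ u ∈ Z, ∑ _v ∈ Z, ∑ t ∈ Z, (if u = t then W else 0) = (Z.card : ℝ) * W := by
          intro u hu
          simp [hu]
        rw [sum_congr rfl this, sum_const, nsmul_eq_mul]
        ring
      have s3 : ∑ _u ∈ Z, ∑ v ∈ Z, ∑ t ∈ Z, (if v = t then W else 0) = (Z.card : ℝ) ^ 2 * W := by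
        have : ∀ v ∈ Z, ∑ t ∈ Z, (if v = t then W else 0) = W := by
          intro v hv
          simp [hv]
        rw [sum_const, sum_congr rfl this, sum_const, nsmul_eq_mul, nsmul_eq_mul]
        ring
      simp only [sum_add_distrib]
      rw [s1, s2, s3]
      simp only [sum_const, nsmul_eq_mul]
      ring

/-- the number of the ordered edges among the common neighbours of three vertices -/
theorem Tri.prod_le {a : V → V → ℝ} (h : Adj a) {K : ℝ} (hK : 0 ≤ K) (hT : Tri a K)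
    {u v t : V} (huv : u ≠ v) (hut : u ≠ t) (hvt : v ≠ t) (S : Finset V) :
    ∑ x ∈ S, ∑ y ∈ S, a x y * ((a u x * a u y) * (a v x * a v y) * (a t x * a t y)) ≤
      K * S.card := by
  set P : Finset V := S.filter fun x => a u x = 1 ∧ a v x = 1 ∧ a t x = 1 with hP
  have e : ∀ x, a u x * a v x * a t x = if (a u x = 1 ∧ a v x = 1 ∧ a t x = 1) then 1 else 0 := by
    intro x
    rcases h.or u x with e1 | e1 <;> rcases h.or v x with e2 | e2 <;>
      rcases h.or t x with e3 | e3 <;> simp [e1, e2, e3]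
  have h1 : ∑ x ∈ S, ∑ y ∈ S, a x y * ((a u x * a u y) * (a v x * a v y) * (a t x * a t y)) =
      EE a P := by
    unfold EE
    rw [hP, sum_filter]
    refine sum_congr rfl fun x _ => ?_
    rw [sum_filter]
    have : ∀ y, a x y * ((a u x * a u y) * (a v x * a v y) * (a t x * a t y)) =
        a x y * ((a u x * a v x * a t x) * (a u y * a v y * a t y)) := by intro y; ring
    simp only [this, e]
    by_cases hx : a u x = 1 ∧ a v x = 1 ∧ a t x = 1
    · rw [if_pos hx]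
      simp only [hx, and_self, if_true, mul_ite, mul_one, mul_zero]
    · simp only [if_neg hx, zero_mul, mul_zero, sum_const_zero]
  rw [h1]
  have h2 := hT u v t huv hut hvt P fun x hx => (mem_filter.1 hx).2
  refine h2.trans (mul_le_mul_of_nonneg_left ?_ hK)
  exact_mod_cast card_filter_le _ _

end Pool.Agent.H.MP_4bcbbd_co.SO
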