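import Pool.Agent.H.MP_4bcbbd_co.SO.GrA

/-!
MP_4bcbbd_co, second order: graphs in which the common neighbourhoods of three vertices span few
edges; the number of edges.
-/

set_option autoImplicit false

namespace Pool.Agent.H.MP_4bcbbd_co.SO

open Finset

variable {V : Type*} [DecidableEq V] {a : V → V → ℝ} {K : ℝ}

theorem exists_v0 (h : Adj a) (hK : 0 ≤ K) (hT : Tri a K) (S : Finset V) {ε : ℝ} (hε : 0 < ε)
    (hm : 8 * (K + 3) < ε ^ 3 * S.card) :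
    ∃ v ∈ S, ∑ x ∈ S, ∑ y ∈ S, a x y * (a v x * a v y) ≤ ε * (S.card : ℝ) ^ 2 := by
  by_contra hc
  push Not at hc
  obtain ⟨m, hmdef⟩ : ∃ m : ℝ, m = S.card := ⟨_, rfl⟩
  rw [← hmdef] at hm
  have hm0 : 0 < m := by
    by_contra hneg
    have h1 : ε ^ 3 * m ≤ 0 := mul_nonpos_of_nonneg_of_nonpos (by positivity) (not_lt.1 hneg)
    linarith
  have hw : ∀ q ∈ S ×ˢ S, 0 ≤ a q.1 q.2 := fun q _ => h.nonneg _ _
  have hf : ∀ v ∈ S, ∀ q ∈ S ×ˢ S, 0 ≤ a v q.1 * a v q.2 ∧ a v q.1 * a v q.2 ≤ 1 := fun v _ q _ =>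
    ⟨mul_nonneg (h.nonneg _ _) (h.nonneg _ _), mul_le_one₀ (h.le_one _ _) (h.nonneg _ _)
      (h.le_one _ _)⟩
  have h1 := cubes_le (S ×ˢ S) (fun q => a q.1 q.2) hw S (fun v q => a v q.1 * a v q.2) hf
    (U := K * S.card) (by positivity) (by
      intro u _ v _ t _ huv hut hvt
      rw [sum_product]
      exact hT.prod_le h hK huv hut hvt S)
  have hs : 0 ≤ ε / 2 * m := by positivity
  have h2 := cubes_ge (S ×ˢ S) (fun q => a q.1 q.2) (fun q => ∑ v ∈ S, a v q.1 * a v q.2) hw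
    (fun q hq => sum_nonneg fun v hv => (hf v hv q hq).1) hs
  have h3 : ∑ q ∈ S ×ˢ S, a q.1 q.2 ≤ m ^ 2 := by
    rw [sum_product, hmdef]
    exact h.EE_le S
  have h4 : m * (ε * m ^ 2) ≤ ∑ q ∈ S ×ˢ S, a q.1 q.2 * ∑ v ∈ S, a v q.1 * a v q.2 := by
    have e1 : ∑ q ∈ S ×ˢ S, a q.1 q.2 * ∑ v ∈ S, a v q.1 * a v q.2 =
        ∑ v ∈ S, ∑ x ∈ S, ∑ y ∈ S, a x y * (a v x * a v y) := by
      have : ∀ q ∈ S ×ˢ S, a q.1 q.2 * ∑ v ∈ S, a v q.1 * a v q.2 =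
          ∑ v ∈ S, a q.1 q.2 * (a v q.1 * a v q.2) := fun q _ => by rw [mul_sum]
      rw [sum_congr rfl this, sum_comm]
      refine sum_congr rfl fun v _ => ?_
      rw [sum_product]
    rw [e1]
    calc m * (ε * m ^ 2) = ∑ _v ∈ S, ε * m ^ 2 := by rw [sum_const, nsmul_eq_mul, hmdef]
      _ ≤ _ := sum_le_sum fun v hv => by rw [hmdef]; exact (hc v hv).le
  rw [← hmdef] at h1
  have h5 : (ε / 2 * m) ^ 2 * (m * (ε * m ^ 2)) - (ε / 2 * m) ^ 3 * m ^ 2 ≤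
      m ^ 3 * (K * m) + 3 * m ^ 2 * m ^ 2 := by
    have a1 := mul_le_mul_of_nonneg_left h4 (sq_nonneg (ε / 2 * m))
    have a2 := mul_le_mul_of_nonneg_left h3 (pow_nonneg hs 3)
    have a3 := mul_le_mul_of_nonneg_left h3 (show 0 ≤ 3 * m ^ 2 by positivity)
    linarith
  have h6 : m ^ 4 * (ε ^ 3 * m) ≤ m ^ 4 * (8 * (K + 3)) := by nlinarith
  have h7 := le_of_mul_le_mul_left h6 (by positivity)
  linarith

theorem good_few (h : Adj a) (hK : 0 ≤ K) (hT : Tri a K) (A B : Finset V)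
    (hA : ∀ x ∈ A, 7 / 8 * (B.card : ℝ) ≤ ∑ v ∈ B, a x v) (hB : 64 ≤ (B.card : ℝ)) :
    EE a A ≤ 3 * K * A.card := by
  obtain ⟨b, hb⟩ : ∃ b : ℝ, b = B.card := ⟨_, rfl⟩
  rw [← hb] at hA hB
  have hw : ∀ q ∈ A ×ˢ A, 0 ≤ a q.1 q.2 := fun q _ => h.nonneg _ _
  have hf : ∀ v ∈ B, ∀ q ∈ A ×ˢ A, 0 ≤ a v q.1 * a v q.2 ∧ a v q.1 * a v q.2 ≤ 1 := fun v _ q _ =>
    ⟨mul_nonneg (h.nonneg _ _) (h.nonneg _ _), mul_le_one₀ (h.le_one _ _) (h.nonneg _ _)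
      (h.le_one _ _)⟩
  have h1 := cubes_le (A ×ˢ A) (fun q => a q.1 q.2) hw B (fun v q => a v q.1 * a v q.2) hf
    (U := K * A.card) (by positivity) (by
      intro u _ v _ t _ huv hut hvt
      rw [sum_product]
      exact hT.prod_le h hK huv hut hvt A)
  have h2 : (3 / 4 * b) ^ 3 * EE a A ≤
      ∑ q ∈ A ×ˢ A, a q.1 q.2 * (∑ v ∈ B, a v q.1 * a v q.2) ^ 3 := by
    have e : EE a A = ∑ q ∈ A ×ˢ A, a q.1 q.2 := by rw [sum_product]; rfl
    rw [e, mul_sum]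
    refine sum_le_sum fun q hq => ?_
    rw [mul_comm]
    refine mul_le_mul_of_nonneg_left ?_ (hw q hq)
    refine pow_le_pow_left₀ (by positivity) ?_ 3
    obtain ⟨hq1, hq2⟩ := mem_product.1 hq
    have i1 := hA _ hq1
    have i2 := hA _ hq2
    have i3 : ∑ v ∈ B, (a q.1 v + a q.2 v - 1) ≤ ∑ v ∈ B, a v q.1 * a v q.2 := by
      refine sum_le_sum fun v _ => ?_
      rw [h.symm v q.1, h.symm v q.2]
      have j1 := h.le_one q.1 v
      have j2 := h.le_one q.2 v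
      nlinarith
    rw [sum_sub_distrib, sum_add_distrib, sum_const, nsmul_eq_mul, mul_one, ← hb] at i3
    linarith
  have h3 : ∑ q ∈ A ×ˢ A, a q.1 q.2 = EE a A := by rw [sum_product]; rfl
  rw [h3, ← hb] at h1
  have h4 := h.EE_nonneg A
  have h5 : (3 / 4 * b) ^ 3 * EE a A ≤ b ^ 3 * (K * A.card) + 3 * b ^ 2 * EE a A := h2.trans h1
  have h6 : 3 * b ^ 2 * EE a A ≤ 3 / 64 * b ^ 3 * EE a A := by
    refine mul_le_mul_of_nonneg_right ?_ h4
    nlinarith [sq_nonneg b]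
  have h7 : b ^ 3 * (3 / 8 * EE a A) ≤ b ^ 3 * (K * A.card) := by nlinarith
  have h8 := le_of_mul_le_mul_left h7 (by positivity)
  have h9 : 0 ≤ K * A.card := by positivity
  linarith

theorem bad_few (h : Adj a) (hK : 0 ≤ K) (hT : Tri a K) (S A B Z : Finset V) (hAS : A ⊆ S)
    (hBS : B ⊆ S) {m M : ℝ} (hm : m = S.card) (hM : M = 2048 ^ 3) (hm0 : 0 < m)
    (hmK : 4 * M * K ≤ m)
    (hA : ∀ v ∈ Z, m / 32 ≤ ∑ x ∈ A, a v x) (hB : ∀ v ∈ Z, m / 32 ≤ ∑ x ∈ B, a v x)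
    (hmiss : ∑ x ∈ A, ∑ y ∈ B, (1 - a x y) ≤ m ^ 2 / (4 * M)) : (Z.card : ℝ) ≤ 6 * M := by
  have hMpos : 0 < M := by rw [hM]; norm_num
  obtain ⟨z, hz⟩ : ∃ z : ℝ, z = Z.card := ⟨_, rfl⟩
  have hf : ∀ v ∈ Z, ∀ q ∈ A ×ˢ B, 0 ≤ a v q.1 * a v q.2 ∧ a v q.1 * a v q.2 ≤ 1 := fun v _ q _ =>
    ⟨mul_nonneg (h.nonneg _ _) (h.nonneg _ _), mul_le_one₀ (h.le_one _ _) (h.nonneg _ _)
      (h.le_one _ _)⟩
  have h1 := cubes_le (A ×ˢ B) (fun _ => 1) (fun _ _ => zero_le_one) Z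
    (fun v q => a v q.1 * a v q.2) hf (U := K * m + m ^ 2 / (4 * M)) (by positivity) (by
      intro u _ v _ t _ huv hut hvt
      have hp := hT.prod_le h hK huv hut hvt S
      rw [← hm] at hp
      have e1 : ∑ q ∈ A ×ˢ B, 1 * ((a u q.1 * a u q.2) * (a v q.1 * a v q.2) *
          (a t q.1 * a t q.2)) ≤
          ∑ q ∈ A ×ˢ B, (a q.1 q.2 * ((a u q.1 * a u q.2) * (a v q.1 * a v q.2) *
            (a t q.1 * a t q.2)) + (1 - a q.1 q.2)) := by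
        refine sum_le_sum fun q _ => ?_
        have j1 : (a u q.1 * a u q.2) * (a v q.1 * a v q.2) * (a t q.1 * a t q.2) ≤ 1 := by
          refine mul_le_one₀ (mul_le_one₀ ?_ ?_ ?_) ?_ ?_
          all_goals first
            | exact mul_nonneg (h.nonneg _ _) (h.nonneg _ _)
            | exact mul_le_one₀ (h.le_one _ _) (h.nonneg _ _) (h.le_one _ _)
        rcases h.or q.1 q.2 with j2 | j2
        · rw [j2]; linarith
        · rw [j2]; linarith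
      refine e1.trans ?_
      rw [sum_add_distrib, sum_product, sum_product]
      refine add_le_add (le_trans ?_ hp) hmiss
      have nn : ∀ x y, 0 ≤ a x y * ((a u x * a u y) * (a v x * a v y) * (a t x * a t y)) := by
        intro x y
        have := h.nonneg
        exact mul_nonneg (this _ _) (mul_nonneg (mul_nonneg (mul_nonneg (this _ _) (this _ _))
          (mul_nonneg (this _ _) (this _ _))) (mul_nonneg (this _ _) (this _ _)))
      calc ∑ x ∈ A, ∑ y ∈ B, a x y * ((a u x * a u y) * (a v x * a v y) * (a t x * a t y)) ≤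
          ∑ x ∈ A, ∑ y ∈ S, a x y * ((a u x * a u y) * (a v x * a v y) * (a t x * a t y)) :=
            sum_le_sum fun x _ => sum_le_sum_of_subset_of_nonneg hBS fun y _ _ => nn x y
        _ ≤ _ := sum_le_sum_of_subset_of_nonneg hAS fun x _ _ => sum_nonneg fun y _ => nn x y)
  have hs : 0 ≤ z / 2048 := by rw [hz]; positivity
  have h2 := cubes_ge (A ×ˢ B) (fun _ => 1) (fun q => ∑ v ∈ Z, a v q.1 * a v q.2)
    (fun _ _ => zero_le_one) (fun q hq => sum_nonneg fun v hv => (hf v hv q hq).1) hs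
  have h3 : ∑ q ∈ A ×ˢ B, (1 : ℝ) ≤ m ^ 2 := by
    rw [sum_const, nsmul_eq_mul, mul_one, card_product, sq, hm]
    push_cast
    have i1 : (A.card : ℝ) ≤ S.card := by exact_mod_cast card_le_card hAS
    have i2 : (B.card : ℝ) ≤ S.card := by exact_mod_cast card_le_card hBS
    exact mul_le_mul i1 i2 (by positivity) (by positivity)
  have h4 : z * (m / 32) ^ 2 ≤ ∑ q ∈ A ×ˢ B, 1 * ∑ v ∈ Z, a v q.1 * a v q.2 := by
    have e1 : ∑ q ∈ A ×ˢ B, 1 * ∑ v ∈ Z, a v q.1 * a v q.2 =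
        ∑ v ∈ Z, (∑ x ∈ A, a v x) * ∑ y ∈ B, a v y := by
      simp only [one_mul]
      rw [sum_comm]
      refine sum_congr rfl fun v _ => ?_
      rw [sum_product, sum_mul_sum]
    rw [e1]
    calc z * (m / 32) ^ 2 = ∑ _v ∈ Z, (m / 32) ^ 2 := by rw [sum_const, nsmul_eq_mul, hz]
      _ ≤ _ := sum_le_sum fun v hv => by
          rw [sq]
          exact mul_le_mul (hA v hv) (hB v hv) (by positivity)
            (sum_nonneg fun x _ => h.nonneg _ _)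
  rw [← hz] at h1
  rw [← hz]
  rcases (show 0 ≤ z by rw [hz]; positivity).eq_or_lt with h0 | h0
  · rw [← h0]; positivity
  have h5 : (z / 2048) ^ 2 * (z * (m / 32) ^ 2) - (z / 2048) ^ 3 * m ^ 2 ≤
      z ^ 3 * (K * m + m ^ 2 / (4 * M)) + 3 * z ^ 2 * m ^ 2 := by
    have a1 := mul_le_mul_of_nonneg_left h4 (sq_nonneg (z / 2048))
    have a2 := mul_le_mul_of_nonneg_left h3 (pow_nonneg hs 3)
    have a3 := mul_le_mul_of_nonneg_left h3 (show 0 ≤ 3 * z ^ 2 by positivity)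
    linarith
  have h6 : (z / 2048) ^ 2 * (z * (m / 32) ^ 2) - (z / 2048) ^ 3 * m ^ 2 = z ^ 3 * m ^ 2 / M := by
    rw [hM]; ring
  have h7 : K * m ≤ m ^ 2 / (4 * M) := by
    rw [le_div_iff₀ (by positivity)]
    nlinarith
  have h8 : z ^ 3 * (K * m + m ^ 2 / (4 * M)) ≤ z ^ 3 * (m ^ 2 / (2 * M)) := by
    refine mul_le_mul_of_nonneg_left ?_ (by positivity)
    have : m ^ 2 / (2 * M) = m ^ 2 / (4 * M) + m ^ 2 / (4 * M) := by
      field_simp; ring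
    linarith
  rw [h6] at h5
  have h9 : z ^ 3 * m ^ 2 / M - z ^ 3 * (m ^ 2 / (2 * M)) = (z ^ 2 * m ^ 2 / (2 * M)) * z := by
    field_simp; ring
  have h10 : (z ^ 2 * m ^ 2 / (2 * M)) * z ≤ (z ^ 2 * m ^ 2 / (2 * M)) * (6 * M) := by
    have : (z ^ 2 * m ^ 2 / (2 * M)) * (6 * M) = 3 * z ^ 2 * m ^ 2 := by field_simp; ring
    rw [this]
    linarith
  exact le_of_mul_le_mul_left h10 (by positivity)

end Pool.Agent.H.MP_4bcbbd_co.SO
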