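import Pool.Agent.H.MP_4bcbbd_co.SO.Abs

/-!
MP_4bcbbd_co, second order: points with three common neighbours in the graph of full pairs,
second part: they span few full pairs.
-/

set_option autoImplicit false

namespace Pool.Agent.H.MP_4bcbbd_co.SO

/-- The conditions for a full pair. -/
def HJ {ι : Type*} (P : Finset ι) (X : ι → Fin 3 → ℝ) (w : ι → ℝ) (p q : ι) : Prop :=
  ∃ u v : Fin 3 → ℝ, (∀ j, |u j| < 1) ∧ (∀ j, |v j| < 1) ∧
    ∀ r ∈ P, r ≠ p → r ≠ q → ∀ t : ℝ,
      |(1 - t) * w p + t * w q + ∑ j, u j * ((X r j - X p j) - t * (X q j - X p j))| < w r ∧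
      |(1 - t) * w p - t * w q + ∑ j, v j * ((X r j - X p j) - t * (X q j - X p j))| < w r

theorem HJ.flip {ι : Type*} {P : Finset ι} {X : ι → Fin 3 → ℝ} {w : ι → ℝ} {p q : ι}
    (h : HJ P X w p q) (s : Fin 3 → ℝ) (hs : ∀ j, |s j| = 1) :
    HJ P (fun x j => s j * X x j) w p q := by
  have hsq : ∀ j, s j * s j = 1 := fun j => by rw [← abs_mul_abs_self, hs, one_mul]
  obtain ⟨u, v, hu, hv, h1⟩ := h
  have e : ∀ (u : Fin 3 → ℝ) (r : ι) (t : ℝ),
      ∑ j, (s j * u j) * ((s j * X r j - s j * X p j) - t * (s j * X q j - s j * X p j)) =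
      ∑ j, u j * ((X r j - X p j) - t * (X q j - X p j)) := by
    intro u r t
    refine Finset.sum_congr rfl fun j _ => ?_
    calc (s j * u j) * ((s j * X r j - s j * X p j) - t * (s j * X q j - s j * X p j)) =
        (s j * s j) * (u j * ((X r j - X p j) - t * (X q j - X p j))) := by ring
      _ = _ := by rw [hsq, one_mul]
  refine ⟨fun j => s j * u j, fun j => s j * v j, ?_, ?_, ?_⟩
  · intro j
    rw [abs_mul, hs, one_mul]
    exact hu j
  · intro j
    rw [abs_mul, hs, one_mul]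
    exact hv j
  · intro r hr hp hq t
    have := h1 r hr hp hq t
    rw [e, e]
    exact this

theorem HJ.swap {ι : Type*} {P : Finset ι} {X : ι → Fin 3 → ℝ} {w : ι → ℝ} {p q : ι}
    (h : HJ P X w p q) : HJ P X w q p := by
  obtain ⟨u, v, hu, hv, h1⟩ := h
  refine ⟨u, fun j => -v j, hu, fun j => by rw [abs_neg]; exact hv j, ?_⟩
  intro r hr hq hp t
  obtain ⟨a, b⟩ := h1 r hr hp hq (1 - t)
  constructor
  · have e : (1 - t) * w q + t * w p + ∑ j, u j * ((X r j - X q j) - t * (X p j - X q j)) =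
        (1 - (1 - t)) * w p + (1 - t) * w q +
          ∑ j, u j * ((X r j - X p j) - (1 - t) * (X q j - X p j)) := by
      have : ∀ j, u j * ((X r j - X q j) - t * (X p j - X q j)) =
          u j * ((X r j - X p j) - (1 - t) * (X q j - X p j)) := by intro j; ring
      rw [Finset.sum_congr rfl fun j _ => this j]
      ring
    rw [e]
    exact a
  · have e : (1 - t) * w q - t * w p + ∑ j, (-v j) * ((X r j - X q j) - t * (X p j - X q j)) =
        -((1 - (1 - t)) * w p - (1 - t) * w q +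
          ∑ j, v j * ((X r j - X p j) - (1 - t) * (X q j - X p j))) := by
      have : ∀ j, (-v j) * ((X r j - X q j) - t * (X p j - X q j)) =
          -(v j * ((X r j - X p j) - (1 - t) * (X q j - X p j))) := by intro j; ring
      rw [Finset.sum_congr rfl fun j _ => this j, Finset.sum_neg_distrib]
      ring
    rw [e, abs_neg]
    exact b

theorem sgn_core (ui uk mi mk : ℝ) (hi : |ui| ≤ 1) (hk : |uk| ≤ |ui|)
    (h1 : ui * mi + uk * mk < |mk| - |mi|) (h2 : ui * mi + uk * mk < |mi| - |mk|) :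
    ui * mi < 0 := by
  by_contra hc
  have a : ui * mi = |ui| * |mi| := by rw [← abs_mul, abs_of_nonneg (not_lt.1 hc)]
  have b : -(|ui| * |mk|) ≤ uk * mk := by
    have b1 : -|uk * mk| ≤ uk * mk := neg_abs_le _
    rw [abs_mul] at b1
    have b2 : |uk| * |mk| ≤ |ui| * |mk| := mul_le_mul_of_nonneg_right hk (abs_nonneg _)
    linarith
  have n1 := abs_nonneg ui
  rcases le_total |mk| |mi| with c | c
  · have := mul_le_mul_of_nonneg_left c n1
    linarith
  · have : |ui| * (|mk| - |mi|) ≤ 1 * (|mk| - |mi|) :=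
      mul_le_mul_of_nonneg_right hi (by linarith)
    linarith

theorem sum3 (f : Fin 3 → ℝ) {i j k : Fin 3} (hij : i ≠ j) (hik : i ≠ k) (hjk : j ≠ k) :
    ∑ l, f l = f i + f j + f k := by
  fin_cases i <;> fin_cases j <;> fin_cases k <;> simp_all [Fin.sum_univ_three] <;> ring

section

variable {ι : Type*} {P : Finset ι} {X : ι → Fin 3 → ℝ} {w : ι → ℝ}

/-- the basic inequalities for a third point -/
theorem top_basic (h : HT P X w) {p q r : ι} (hp : p ∈ P) (hq : q ∈ P) (hr : r ∈ P) (hrp : r ≠ p)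
    (hrq : r ≠ q) (hpq : ∀ j, X p j < X q j) {T j : Fin 3} (hTj : T ≠ j) :
    ∃ (t : ℝ) (k : Fin 3) (mi mk : ℝ), t * (X q j - X p j) = X r j - X p j ∧ k ≠ T ∧ k ≠ j ∧
      mi = (X r T - X p T) - t * (X q T - X p T) ∧
      |mi| + w r < |1 - t| * w p + |t| * w q + |mk| ∧
      |mk| + w r < |1 - t| * w p + |t| * w q + |mi| ∧
      ∀ u : Fin 3 → ℝ, ∑ l, u l * ((X r l - X p l) - t * (X q l - X p l)) =
        u T * mi + u k * mk := by
  obtain ⟨k, hkT, hkj⟩ := third T j hTj
  have ha := sub_pos.2 (hpq j)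
  obtain ⟨t, ht⟩ : ∃ t, t = (X r j - X p j) / (X q j - X p j) := ⟨_, rfl⟩
  have ht2 : t * (X q j - X p j) = X r j - X p j := by
    rw [ht, div_mul_cancel₀ _ ha.ne']
  have e : ∀ l, (1 - t) * (X p l - X r l) + t * (X q l - X r l) =
      -((X r l - X p l) - t * (X q l - X p l)) := by intro l; ring
  have hne : (1 - t ≠ 0 ∨ t ≠ 0) := by
    by_cases h0 : t = 0
    · left; rw [h0]; norm_num
    · right; exact h0
  have q1 := h r hr p hp q hq hrp.symm hrq.symm (1 - t) t hne T k j hkT.symm hTj hkj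
  have q2 := h r hr p hp q hq hrp.symm hrq.symm (1 - t) t hne k T j hkT hkj hTj
  rw [e, e, e, show (1 - t) + t = 1 by ring, abs_one, one_mul, abs_neg, abs_neg, abs_neg,
    ht2, sub_self, abs_zero, add_zero] at q1 q2
  refine ⟨t, k, (X r T - X p T) - t * (X q T - X p T), (X r k - X p k) - t * (X q k - X p k),
    ht2, hkT, hkj, rfl, q1, q2, ?_⟩
  intro u
  rw [sum3 _ hkT.symm hTj hkj, ht2, sub_self, mul_zero, add_zero]

/-- a maximal coordinate -/
theorem exists_top (u : Fin 3 → ℝ) : ∃ T : Fin 3, ∀ j, |u j| ≤ |u T| := by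
  obtain ⟨T, -, hT⟩ := Finset.exists_max_image (Finset.univ : Finset (Fin 3)) (fun j => |u j|)
    ⟨0, Finset.mem_univ _⟩
  exact ⟨T, fun j => hT j (Finset.mem_univ _)⟩

theorem top_signs (h : HT P X w) {p q : ι} (hp : p ∈ P) (hq : q ∈ P) (hpq : ∀ j, X p j < X q j) (hJ : HJ P X w p q) :
    ∃ (i k : Fin 3) (σ τ : ℝ), i ≠ k ∧ ∀ r ∈ P, r ≠ p → r ≠ q →
      ((∀ j, X p j < X r j) → (∀ j, X r j < X q j) → 
        σ * ((X r i - X p i) * (X q k - X p k) - (X r k - X p k) * (X q i - X p i)) < 0) ∧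
      ((∀ j, X r j < X p j) →
        τ * ((X r i - X p i) * (X q k - X p k) - (X r k - X p k) * (X q i - X p i)) < 0) ∧
      ((∀ j, X q j < X r j) →
        0 < τ * ((X r i - X p i) * (X q k - X p k) - (X r k - X p k) * (X q i - X p i))) := by
  obtain ⟨u, v, hu, hv, h1⟩ := hJ
  obtain ⟨T, hT⟩ := exists_top u
  obtain ⟨T', hT'⟩ := exists_top v
  have mid : ∀ r ∈ P, r ≠ p → r ≠ q → (∀ j, X p j < X r j) → (∀ j, X r j < X q j) →
      ∀ j, j ≠ T →
        u T * ((X r T - X p T) * (X q j - X p j) - (X r j - X p j) * (X q T - X p T)) < 0 := by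
    intro r hr hrp hrq hlo hhi j hj
    obtain ⟨t, k, mi, mk, ht, hkT, hkj, hmi, a1, a2, hs⟩ :=
      top_basic h hp hq hr hrp hrq hpq hj.symm
    have ha := sub_pos.2 (hpq j)
    have ht0 : 0 < t := by
      by_contra hc
      have := mul_nonpos_of_nonpos_of_nonneg (not_lt.1 hc) ha.le
      linarith [hlo j]
    have ht1 : t < 1 := by
      by_contra hc
      have := mul_le_mul_of_nonneg_right (not_lt.1 hc) ha.le
      linarith [hhi j]
    rw [abs_of_pos ht0, abs_of_pos (sub_pos.2 ht1)] at a1 a2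
    have b := (h1 r hr hrp hrq t).1
    rw [hs u] at b
    have b2 := (abs_lt.1 b).2
    have c := sgn_core (u T) (u k) mi mk (hu T).le (hT k) (by linarith) (by linarith)
    have e : u T * ((X r T - X p T) * (X q j - X p j) - (X r j - X p j) * (X q T - X p T)) =
        (u T * mi) * (X q j - X p j) := by
      rw [hmi, ← ht]; ring
    rw [e]
    exact mul_neg_of_neg_of_pos c ha
  have low : ∀ r ∈ P, r ≠ p → r ≠ q → (∀ j, X r j < X p j) →
      ∀ j, j ≠ T' →
        v T' * ((X r T' - X p T') * (X q j - X p j) - (X r j - X p j) * (X q T' - X p T')) < 0 := by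
    intro r hr hrp hrq hlo j hj
    obtain ⟨t, k, mi, mk, ht, hkT, hkj, hmi, a1, a2, hs⟩ :=
      top_basic h hp hq hr hrp hrq hpq hj.symm
    have ha := sub_pos.2 (hpq j)
    have ht0 : t < 0 := by
      by_contra hc
      have := mul_nonneg (not_lt.1 hc) ha.le
      linarith [hlo j]
    rw [abs_of_neg ht0, abs_of_pos (show 0 < 1 - t by linarith)] at a1 a2
    have b := (h1 r hr hrp hrq t).2
    rw [hs v] at b
    have b2 := (abs_lt.1 b).2
    have c := sgn_core (v T') (v k) mi mk (hv T').le (hT' k) (by linarith) (by linarith)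
    have e : v T' * ((X r T' - X p T') * (X q j - X p j) - (X r j - X p j) * (X q T' - X p T')) =
        (v T' * mi) * (X q j - X p j) := by
      rw [hmi, ← ht]; ring
    rw [e]
    exact mul_neg_of_neg_of_pos c ha
  have high : ∀ r ∈ P, r ≠ p → r ≠ q → (∀ j, X q j < X r j) →
      ∀ j, j ≠ T' →
        0 < v T' * ((X r T' - X p T') * (X q j - X p j) -
          (X r j - X p j) * (X q T' - X p T')) := by
    intro r hr hrp hrq hhi j hj
    obtain ⟨t, k, mi, mk, ht, hkT, hkj, hmi, a1, a2, hs⟩ :=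
      top_basic h hp hq hr hrp hrq hpq hj.symm
    have ha := sub_pos.2 (hpq j)
    have ht1 : 1 < t := by
      by_contra hc
      have := mul_le_mul_of_nonneg_right (not_lt.1 hc) ha.le
      linarith [hhi j]
    rw [abs_of_pos (show 0 < t by linarith), abs_of_neg (show 1 - t < 0 by linarith)] at a1 a2
    have b := (h1 r hr hrp hrq t).2
    rw [hs v] at b
    have b2 := (abs_lt.1 b).1
    have c := sgn_core (-v T') (-v k) mi mk (by rw [abs_neg]; exact (hv T').le)
      (by rw [abs_neg, abs_neg]; exact hT' k) (by linarith) (by linarith)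
    have e : v T' * ((X r T' - X p T') * (X q j - X p j) - (X r j - X p j) * (X q T' - X p T')) =
        -(-v T' * mi) * (X q j - X p j) := by
      rw [hmi, ← ht]; ring
    rw [e]
    exact mul_pos (by linarith) ha
  by_cases hTT : T' = T
  · subst hTT
    obtain ⟨k, -, hk, -, -⟩ := others T'
    refine ⟨T', k, u T', v T', hk, fun r hr hrp hrq => ⟨?_, ?_, ?_⟩⟩
    · intro a b; exact mid r hr hrp hrq a b k hk.symm
    · intro a; exact low r hr hrp hrq a k hk.symm
    · intro a; exact high r hr hrp hrq a k hk.symm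
  · refine ⟨T, T', u T, -v T', fun e => hTT e.symm, fun r hr hrp hrq => ⟨?_, ?_, ?_⟩⟩
    · intro a b; exact mid r hr hrp hrq a b T' hTT
    · intro a
      have := low r hr hrp hrq a T (fun e => hTT e.symm)
      linarith
    · intro a
      have := high r hr hrp hrq a T (fun e => hTT e.symm)
      linarith

/-- the slope of `xy` is the largest one at `x` in the plane of the coordinates `i`, `k` -/
def Mx (P : Finset ι) (X : ι → Fin 3 → ℝ) (i k : Fin 3) (x y : ι) : Prop :=
  ∀ r ∈ P, r ≠ x → r ≠ y →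
    (X r k - X x k) / (X r i - X x i) < (X y k - X x k) / (X y i - X x i)

theorem pos_aux {a b : ℝ} (h : 0 < a * b) (ha : 0 ≤ a) : 0 < b := by
  by_contra hc
  have := mul_nonpos_of_nonneg_of_nonpos ha (not_lt.1 hc)
  linarith

theorem neg_aux {a b : ℝ} (h : a * b < 0) (ha : 0 ≤ a) : b < 0 := by
  by_contra hc
  have := mul_nonneg ha (not_lt.1 hc)
  linarith

theorem slope_pos {dk di ak ai : ℝ} (hd : 0 < di) (ha : 0 < ai) (h : 0 < di * ak - dk * ai) :
    dk / di < ak / ai := by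
  rw [div_lt_div_iff₀ hd ha]
  linarith

theorem slope_neg {dk di ak ai : ℝ} (hd : di < 0) (ha : 0 < ai) (h : di * ak - dk * ai < 0) :
    dk / di < ak / ai := by
  rw [← neg_div_neg_eq dk di, div_lt_div_iff₀ (neg_pos.2 hd) ha]
  linarith

theorem mx_of_signs 
    (hinc : ∀ x ∈ P, ∀ y ∈ P, y ≠ x → (∀ j, X x j < X y j) ∨ (∀ j, X y j < X x j))
    {p q : ι} (hp : p ∈ P) (hq : q ∈ P) (hpq : ∀ j, X p j < X q j)
    (i k : Fin 3) (σ τ : ℝ) (hτ : 0 ≤ τ) (hs : ∀ r ∈ P, r ≠ p → r ≠ q →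
      ((∀ j, X p j < X r j) → (∀ j, X r j < X q j) → 
        σ * ((X r i - X p i) * (X q k - X p k) - (X r k - X p k) * (X q i - X p i)) < 0) ∧
      ((∀ j, X r j < X p j) →
        τ * ((X r i - X p i) * (X q k - X p k) - (X r k - X p k) * (X q i - X p i)) < 0) ∧
      ((∀ j, X q j < X r j) →
        0 < τ * ((X r i - X p i) * (X q k - X p k) - (X r k - X p k) * (X q i - X p i)))) :
    Mx P X i k p q ∨ Mx P X i k q p := by
  have ha := sub_pos.2 (hpq i)
  rcases le_or_gt 0 σ with hσ | hσ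
  · right
    intro r hr hrq hrp
    obtain ⟨m1, m2, m3⟩ := hs r hr hrp hrq
    rw [← neg_div_neg_eq (X p k - X q k), neg_sub, neg_sub]
    have e : (X r i - X q i) * (X q k - X p k) - (X r k - X q k) * (X q i - X p i) =
        (X r i - X p i) * (X q k - X p k) - (X r k - X p k) * (X q i - X p i) := by ring
    rcases hinc q hq r hr hrq with c | c
    · refine slope_pos (sub_pos.2 (c i)) ha ?_
      rw [e]
      exact pos_aux (m3 c) hτ
    · refine slope_neg (sub_neg.2 (c i)) ha ?_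
      rw [e]
      rcases hinc p hp r hr hrp with d | d
      · exact neg_aux (m1 d c) hσ
      · exact neg_aux (m2 d) hτ
  · left
    intro r hr hrp hrq
    obtain ⟨m1, m2, m3⟩ := hs r hr hrp hrq
    rcases hinc p hp r hr hrp with d | d
    · refine slope_pos (sub_pos.2 (d i)) ha ?_
      rcases hinc q hq r hr hrq with c | c
      · exact pos_aux (m3 c) hτ
      · have := m1 d c
        by_contra hc
        have := mul_nonneg_of_nonpos_of_nonpos hσ.le (not_lt.1 hc)
        linarith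
    · refine slope_neg (sub_neg.2 (d i)) ha ?_
      exact neg_aux (m2 d) hτ

theorem top_mx (h : HT P X w)
    (hinc : ∀ x ∈ P, ∀ y ∈ P, y ≠ x → (∀ j, X x j < X y j) ∨ (∀ j, X y j < X x j))
    {p q : ι} (hp : p ∈ P) (hq : q ∈ P) (hpq : ∀ j, X p j < X q j) (hJ : HJ P X w p q) :
    ∃ i k : Fin 3, i ≠ k ∧ (Mx P X i k p q ∨ Mx P X i k q p) := by
  obtain ⟨i, k, σ, τ, hik, hs⟩ := top_signs h hp hq hpq hJ
  rcases le_or_gt 0 τ with hτ | hτ
  · exact ⟨i, k, hik, mx_of_signs hinc hp hq hpq i k σ τ hτ hs⟩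
  · refine ⟨k, i, hik.symm, mx_of_signs hinc hp hq hpq k i (-σ) (-τ) (by linarith) ?_⟩
    intro r hr hrp hrq
    obtain ⟨m1, m2, m3⟩ := hs r hr hrp hrq
    refine ⟨fun a b => ?_, fun a => ?_, fun a => ?_⟩
    · have := m1 a b; linarith
    · have := m2 a; linarith
    · have := m3 a; linarith

theorem mx_unique {i k : Fin 3} {x y y' : ι} (hy : y ∈ P) (hy' : y' ∈ P) (hyx : y ≠ x)
    (hyx' : y' ≠ x) (h : Mx P X i k x y) (h' : Mx P X i k x y') : y = y' := by
  by_contra hne
  have a := h y' hy' hyx' (Ne.symm hne)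
  have b := h' y hy hyx hne
  linarith

open Classical in
theorem own_card : ((P ×ˢ P).filter fun z : ι × ι => z.2 ≠ z.1 ∧
    ∃ i k : Fin 3, i ≠ k ∧ Mx P X i k z.1 z.2).card ≤ 6 * P.card := by
  have h1 : ((P ×ˢ P).filter fun z : ι × ι => z.2 ≠ z.1 ∧
      ∃ i k : Fin 3, i ≠ k ∧ Mx P X i k z.1 z.2) ⊆
      ((Finset.univ : Finset (Fin 3 × Fin 3)).filter fun c => c.1 ≠ c.2).biUnion fun c =>
        (P ×ˢ P).filter fun z : ι × ι => z.2 ≠ z.1 ∧ Mx P X c.1 c.2 z.1 z.2 := by
    intro z hz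
    rw [Finset.mem_filter] at hz
    obtain ⟨hz1, hz2, i, k, hik, hm⟩ := hz
    rw [Finset.mem_biUnion]
    exact ⟨(i, k), Finset.mem_filter.2 ⟨Finset.mem_univ _, hik⟩,
      Finset.mem_filter.2 ⟨hz1, hz2, hm⟩⟩
  have h2 : ((Finset.univ : Finset (Fin 3 × Fin 3)).filter fun c => c.1 ≠ c.2).card = 6 := by
    decide
  refine (Finset.card_le_card h1).trans ?_
  rw [← h2]
  refine Finset.card_biUnion_le_card_mul _ _ _ fun c _ => ?_
  refine Finset.card_le_card_of_injOn (fun z => z.1) ?_ ?_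
  · intro z hz
    have := (Finset.mem_filter.1 hz).1
    exact (Finset.mem_product.1 this).1
  · intro z hz z' hz' hzz
    have a := Finset.mem_filter.1 (Finset.mem_coe.1 hz)
    have b := Finset.mem_filter.1 (Finset.mem_coe.1 hz')
    have hzz' : z.1 = z'.1 := hzz
    have a2 := (Finset.mem_product.1 a.1).2
    have b2 := (Finset.mem_product.1 b.1).2
    refine Prod.ext hzz' ?_
    have a3 := a.2
    have b3 := b.2
    rw [← hzz'] at b3
    exact mx_unique a2 b2 a3.1 b3.1 a3.2 b3.2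

open Classical in
/-- The full pairs among points with three common neighbours. -/
theorem pair_card (h : HT P X w) (J : ι → ι → Prop)
    (hJ : ∀ x ∈ P, ∀ y ∈ P, y ≠ x → J x y → HJ P X w x y) :
    ((P ×ˢ P).filter fun z : ι × ι => z.2 ≠ z.1 ∧ J z.1 z.2).card ≤ 12 * P.card := by
  obtain ⟨s, hs, hinc⟩ := h.chain
  have h' := h.flip s hs
  set Y : ι → Fin 3 → ℝ := fun x j => s j * X x j with hY
  set O : Finset (ι × ι) := (P ×ˢ P).filter fun z : ι × ι => z.2 ≠ z.1 ∧
      ∃ i k : Fin 3, i ≠ k ∧ Mx P Y i k z.1 z.2 with hO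
  have h1 : ((P ×ˢ P).filter fun z : ι × ι => z.2 ≠ z.1 ∧ J z.1 z.2) ⊆
      O ∪ O.image Prod.swap := by
    intro z hz
    obtain ⟨hz1, hz2, hz3⟩ := Finset.mem_filter.1 hz
    obtain ⟨hx, hy⟩ := Finset.mem_product.1 hz1
    have hj : HJ P Y w z.1 z.2 := (hJ _ hx _ hy hz2 hz3).flip s hs
    have hmx : ∃ i k : Fin 3, i ≠ k ∧ (Mx P Y i k z.1 z.2 ∨ Mx P Y i k z.2 z.1) := by
      rcases hinc _ hx _ hy hz2 with c | c
      · exact top_mx h' hinc hx hy c hj
      · obtain ⟨i, k, hik, hm⟩ := top_mx h' hinc hy hx c hj.swap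
        exact ⟨i, k, hik, hm.symm⟩
    obtain ⟨i, k, hik, hm | hm⟩ := hmx
    · exact Finset.mem_union_left _ (Finset.mem_filter.2 ⟨hz1, hz2, i, k, hik, hm⟩)
    · refine Finset.mem_union_right _ (Finset.mem_image.2 ⟨z.swap, ?_, Prod.swap_swap z⟩)
      exact Finset.mem_filter.2 ⟨Finset.mem_product.2 ⟨hy, hx⟩, Ne.symm hz2, i, k, hik, hm⟩
  have h2 : O.card ≤ 6 * P.card := own_card
  calc _ ≤ (O ∪ O.image Prod.swap).card := Finset.card_le_card h1
    _ ≤ O.card + (O.image Prod.swap).card := Finset.card_union_le _ _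
    _ ≤ O.card + O.card := Nat.add_le_add_left Finset.card_image_le _
    _ ≤ 12 * P.card := by omega

end

end Pool.Agent.H.MP_4bcbbd_co.SO
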